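import Mathlib

/-!
The cyclic algebra `x ^ n = u`, `y ^ n = v`, `x y = ζ y x` over the field of rational functions in
two variables.
-/

set_option autoImplicit false

namespace Pool.Agent.H339R3

/-- rational functions in two variables -/
abbrev KK : Type := FractionRing (MvPolynomial (Fin 2) ℂ)

/-- the first variable -/
noncomputable abbrev uu : KK :=
  algebraMap (MvPolynomial (Fin 2) ℂ) (FractionRing (MvPolynomial (Fin 2) ℂ))
    (MvPolynomial.X (0 : Fin 2))

/-- the second variable -/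
noncomputable abbrev vv : KK :=
  algebraMap (MvPolynomial (Fin 2) ℂ) (FractionRing (MvPolynomial (Fin 2) ℂ))
    (MvPolynomial.X (1 : Fin 2))

/-- the relations of the cyclic algebra -/
abbrev rel (n : ℕ) (ζ : ℂ) : FreeAlgebra KK (Fin 2) → FreeAlgebra KK (Fin 2) → Prop :=
  fun a b : FreeAlgebra (FractionRing (MvPolynomial (Fin 2) ℂ)) (Fin 2) =>
            (a = FreeAlgebra.ι (FractionRing (MvPolynomial (Fin 2) ℂ)) (0 : Fin 2) ^ n ∧
              b = algebraMap (FractionRing (MvPolynomial (Fin 2) ℂ))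
                    (FreeAlgebra (FractionRing (MvPolynomial (Fin 2) ℂ)) (Fin 2))
                    (algebraMap (MvPolynomial (Fin 2) ℂ) (FractionRing (MvPolynomial (Fin 2) ℂ))
                      (MvPolynomial.X (0 : Fin 2)))) ∨
            (a = FreeAlgebra.ι (FractionRing (MvPolynomial (Fin 2) ℂ)) (1 : Fin 2) ^ n ∧
              b = algebraMap (FractionRing (MvPolynomial (Fin 2) ℂ))
                    (FreeAlgebra (FractionRing (MvPolynomial (Fin 2) ℂ)) (Fin 2))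
                    (algebraMap (MvPolynomial (Fin 2) ℂ) (FractionRing (MvPolynomial (Fin 2) ℂ))
                      (MvPolynomial.X (1 : Fin 2)))) ∨
            (a = FreeAlgebra.ι (FractionRing (MvPolynomial (Fin 2) ℂ)) (0 : Fin 2) *
                  FreeAlgebra.ι (FractionRing (MvPolynomial (Fin 2) ℂ)) (1 : Fin 2) ∧
              b = algebraMap ℂ (FreeAlgebra (FractionRing (MvPolynomial (Fin 2) ℂ)) (Fin 2)) ζ *
                  (FreeAlgebra.ι (FractionRing (MvPolynomial (Fin 2) ℂ)) (1 : Fin 2) *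
                    FreeAlgebra.ι (FractionRing (MvPolynomial (Fin 2) ℂ)) (0 : Fin 2)))

/-- the cyclic algebra -/
abbrev AA (n : ℕ) (ζ : ℂ) : Type := RingQuot (rel n ζ)

/-- the quotient map -/
noncomputable abbrev mk (n : ℕ) (ζ : ℂ) : FreeAlgebra KK (Fin 2) →ₐ[KK] AA n ζ :=
  RingQuot.mkAlgHom KK (rel n ζ)

/-- the first generator -/
noncomputable def tt (n : ℕ) (ζ : ℂ) : AA n ζ := mk n ζ (FreeAlgebra.ι KK 0)

/-- the second generator -/
noncomputable def yy (n : ℕ) (ζ : ℂ) : AA n ζ := mk n ζ (FreeAlgebra.ι KK 1)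

theorem tt_pow (n : ℕ) (ζ : ℂ) : tt n ζ ^ n = algebraMap KK (AA n ζ) uu := by
  rw [tt, ← map_pow, RingQuot.mkAlgHom_rel KK (s := rel n ζ) (Or.inl ⟨rfl, rfl⟩), AlgHom.commutes]

theorem yy_pow (n : ℕ) (ζ : ℂ) : yy n ζ ^ n = algebraMap KK (AA n ζ) vv := by
  rw [yy, ← map_pow, RingQuot.mkAlgHom_rel KK (s := rel n ζ) (Or.inr (Or.inl ⟨rfl, rfl⟩)),
    AlgHom.commutes]

theorem algebraMap_tower (n : ℕ) (ζ c : ℂ) :
    algebraMap ℂ (AA n ζ) c = algebraMap KK (AA n ζ) (algebraMap ℂ KK c) := rfl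

theorem tt_yy (n : ℕ) (ζ : ℂ) :
    tt n ζ * yy n ζ = algebraMap ℂ (AA n ζ) ζ * (yy n ζ * tt n ζ) := by
  have h1 : (algebraMap ℂ (FreeAlgebra KK (Fin 2)) ζ) =
      algebraMap KK (FreeAlgebra KK (Fin 2)) (algebraMap ℂ KK ζ) := rfl
  rw [tt, yy, ← map_mul, RingQuot.mkAlgHom_rel KK (s := rel n ζ) (Or.inr (Or.inr ⟨rfl, rfl⟩)),
    map_mul, map_mul, h1, AlgHom.commutes, algebraMap_tower]

/-- Scalars of the complex numbers are central. -/
theorem central (n : ℕ) (ζ c : ℂ) (x : AA n ζ) :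
    algebraMap ℂ (AA n ζ) c * x = x * algebraMap ℂ (AA n ζ) c := Algebra.commutes c x

section span

variable (n : ℕ) [NeZero n] (ζ : ℂ)

/-- the span of the monomials -/
noncomputable def spanM : Submodule KK (AA n ζ) :=
  Submodule.span KK (Set.range fun p : Fin n × Fin n => tt n ζ ^ (p.1 : ℕ) * yy n ζ ^ (p.2 : ℕ))

variable {n ζ}

theorem mono_mem (i j : ℕ) : tt n ζ ^ i * yy n ζ ^ j ∈ spanM n ζ := by
  have hn : 0 < n := Nat.pos_of_ne_zero (NeZero.ne n)
  have h1 : tt n ζ ^ i = algebraMap KK _ (uu ^ (i / n)) * tt n ζ ^ (i % n) := by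
    conv_lhs => rw [← Nat.div_add_mod i n, pow_add, pow_mul, tt_pow, ← map_pow]
  have h2 : yy n ζ ^ j = algebraMap KK _ (vv ^ (j / n)) * yy n ζ ^ (j % n) := by
    conv_lhs => rw [← Nat.div_add_mod j n, pow_add, pow_mul, yy_pow, ← map_pow]
  have h3 : tt n ζ ^ i * yy n ζ ^ j =
      (uu ^ (i / n) * vv ^ (j / n)) • (tt n ζ ^ (i % n) * yy n ζ ^ (j % n)) := by
    rw [h1, h2, Algebra.smul_def, map_mul]
    rw [mul_assoc, ← mul_assoc (tt n ζ ^ (i % n)), ← Algebra.commutes (vv ^ (j / n)),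
      mul_assoc, mul_assoc]
  rw [h3]
  refine Submodule.smul_mem _ _ (Submodule.subset_span ⟨(⟨i % n, Nat.mod_lt _ hn⟩,
    ⟨j % n, Nat.mod_lt _ hn⟩), rfl⟩)

theorem yy_tt (hζ : ζ ≠ 0) (i : ℕ) : yy n ζ * tt n ζ ^ i =
    algebraMap ℂ _ (ζ⁻¹ ^ i) * (tt n ζ ^ i * yy n ζ) := by
  induction i with
  | zero => simp
  | succ i ih =>
    have h1 : yy n ζ * tt n ζ = algebraMap ℂ _ ζ⁻¹ * (tt n ζ * yy n ζ) := by
      rw [tt_yy, ← mul_assoc, ← map_mul, inv_mul_cancel₀ hζ, map_one, one_mul]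
    rw [pow_succ, ← mul_assoc, ih, mul_assoc, mul_assoc, h1, pow_succ, map_mul]
    rw [← mul_assoc (tt n ζ ^ i) (algebraMap ℂ _ ζ⁻¹), ← central n ζ ζ⁻¹ (tt n ζ ^ i)]
    simp only [mul_assoc]

theorem spanM_top (hζ : ζ ≠ 0) : spanM n ζ = ⊤ := by
  have key : ∀ x : FreeAlgebra KK (Fin 2), ∀ w ∈ spanM n ζ, mk n ζ x * w ∈ spanM n ζ := by
    intro x
    refine FreeAlgebra.induction KK (Fin 2)
      (motive := fun x => ∀ w ∈ spanM n ζ, mk n ζ x * w ∈ spanM n ζ) ?_ ?_ ?_ ?_ x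
    · intro r w hw
      rw [AlgHom.commutes, ← Algebra.smul_def]
      exact Submodule.smul_mem _ _ hw
    · intro i w hw
      refine Submodule.span_induction (p := fun w _ => mk n ζ (FreeAlgebra.ι KK i) * w ∈ spanM n ζ)
        ?_ ?_ ?_ ?_ hw
      · rintro _ ⟨p, rfl⟩
        fin_cases i
        · show tt n ζ * (tt n ζ ^ (p.1 : ℕ) * yy n ζ ^ (p.2 : ℕ)) ∈ _
          rw [← mul_assoc, ← pow_succ']
          exact mono_mem _ _
        · show yy n ζ * (tt n ζ ^ (p.1 : ℕ) * yy n ζ ^ (p.2 : ℕ)) ∈ _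
          rw [← mul_assoc, yy_tt hζ, mul_assoc, mul_assoc, ← pow_succ', algebraMap_tower,
            ← Algebra.smul_def]
          exact Submodule.smul_mem _ _ (mono_mem _ _)
      · show mk n ζ _ * 0 ∈ _
        rw [mul_zero]; exact Submodule.zero_mem _
      · intro a b _ _ ha hb
        show mk n ζ _ * (a + b) ∈ _
        rw [mul_add]; exact Submodule.add_mem _ ha hb
      · intro c a _ ha
        show mk n ζ _ * (c • a) ∈ _
        rw [Algebra.mul_smul_comm]; exact Submodule.smul_mem _ _ ha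
    · intro a b ha hb w hw
      rw [map_mul, mul_assoc]
      exact ha _ (hb _ hw)
    · intro a b ha hb w hw
      rw [map_add, add_mul]
      exact Submodule.add_mem _ (ha _ hw) (hb _ hw)
  rw [eq_top_iff]
  rintro x -
  obtain ⟨x, rfl⟩ := RingQuot.mkAlgHom_surjective KK (rel n ζ) x
  have h1 : (1 : AA n ζ) ∈ spanM n ζ := by
    have := mono_mem (n := n) (ζ := ζ) 0 0
    simpa using this
  have := key x 1 h1
  rwa [mul_one] at this

theorem finite_AA (hζ : ζ ≠ 0) : Module.Finite KK (AA n ζ) := by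
  refine ⟨?_⟩
  rw [← spanM_top hζ]
  exact Submodule.fg_span (Set.finite_range _)

/-- every element is a combination of monomials -/
theorem exists_coeff (hζ : ζ ≠ 0) (x : AA n ζ) : ∃ c : Fin n × Fin n → KK,
    x = ∑ p, c p • (tt n ζ ^ (p.1 : ℕ) * yy n ζ ^ (p.2 : ℕ)) := by
  have hx : x ∈ spanM n ζ := by rw [spanM_top hζ]; trivial
  obtain ⟨c, hc⟩ := (Submodule.mem_span_range_iff_exists_fun KK).mp hx
  exact ⟨c, hc.symm⟩

end span

end Pool.Agent.H339R3
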