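import Mathlib

/-!
Expansions in base `b` transport Lebesgue measure on the unit interval to the uniform product
measure.
-/

set_option autoImplicit false

namespace Pool.Agent.H339R3.CN

open MeasureTheory Set

/-- the uniform probability measure on `b` points -/
noncomputable def uni (b : ℕ) : Measure (Fin b) := ((b : ENNReal)⁻¹) • Measure.count

instance (b : ℕ) [NeZero b] : IsProbabilityMeasure (uni b) := by
  constructor
  rw [uni, Measure.smul_apply, Measure.count_univ, ENat.card_eq_coe_fintype_card, Fintype.card_fin,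
    smul_eq_mul]
  simp only [ENat.toENNReal_coe]
  exact ENNReal.inv_mul_cancel (by simpa using NeZero.ne b) (by simp)

theorem uni_singleton (b : ℕ) (x : Fin b) : uni b {x} = (b : ENNReal)⁻¹ := by
  rw [uni, Measure.smul_apply, Measure.count_singleton, smul_eq_mul, mul_one]

/-- the uniform product measure -/
noncomputable def nu (b : ℕ) [NeZero b] : Measure (ℕ → Fin b) := Measure.infinitePi fun _ => uni b

instance (b : ℕ) [NeZero b] : IsProbabilityMeasure (nu b) := by
  unfold nu; infer_instance

/-- finite measures agreeing on cylinders are equal -/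
theorem ext_cyl {b : ℕ} {μ ν : Measure (ℕ → Fin b)} [IsFiniteMeasure μ]
    (h : ∀ (x : ℕ → Fin b) (n : ℕ), μ (PiNat.cylinder x n) = ν (PiNat.cylinder x n)) : μ = ν := by
  have hb := PiNat.isTopologicalBasis_cylinders (fun _ : ℕ => Fin b)
  have hgen : (inferInstance : MeasurableSpace (ℕ → Fin b)) =
      MeasurableSpace.generateFrom
        {s : Set (ℕ → Fin b) | ∃ (x : ℕ → Fin b) (n : ℕ), s = PiNat.cylinder x n} := by
    rw [← hb.borel_eq_generateFrom]
    exact BorelSpace.measurable_eq
  have huniv : μ univ = ν univ := by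
    by_cases hne : Nonempty (ℕ → Fin b)
    · obtain ⟨x⟩ := hne
      have := h x 0
      rwa [PiNat.cylinder_zero] at this
    · have : (univ : Set (ℕ → Fin b)) = ∅ := by
        rw [not_nonempty_iff] at hne
        exact univ_eq_empty_iff.mpr hne
      rw [this, measure_empty, measure_empty]
  refine ext_of_generate_finite _ hgen ?_ ?_ huniv
  · rintro s ⟨x, n, rfl⟩ t ⟨y, m, rfl⟩ hne
    obtain ⟨w, hw1, hw2⟩ := hne
    have e1 : PiNat.cylinder x n = PiNat.cylinder w n := (PiNat.mem_cylinder_iff_eq.mp hw1).symm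
    have e2 : PiNat.cylinder y m = PiNat.cylinder w m := (PiNat.mem_cylinder_iff_eq.mp hw2).symm
    rw [e1, e2]
    rcases le_total n m with hnm | hnm
    · exact ⟨w, m, inter_eq_right.mpr (PiNat.cylinder_anti w hnm)⟩
    · exact ⟨w, n, inter_eq_left.mpr (PiNat.cylinder_anti w hnm)⟩
  · rintro s ⟨x, n, rfl⟩
    exact h x n

theorem nu_cylinder {b : ℕ} [NeZero b] (x : ℕ → Fin b) (n : ℕ) :
    nu b (PiNat.cylinder x n) = ((b : ENNReal)⁻¹) ^ n := by
  have h : PiNat.cylinder x n = Set.pi (Finset.range n) (fun i => {x i}) := by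
    ext y
    simp [PiNat.mem_cylinder_iff, Set.mem_pi]
  rw [h, nu, Measure.infinitePi_pi _ (fun i _ => MeasurableSet.singleton _)]
  simp [uni_singleton]

theorem measurable_digits (b : ℕ) [NeZero b] : Measurable (fun x : ℝ => Real.digits x b) := by
  refine measurable_pi_lambda _ fun i => ?_
  have h1 : Measurable fun x : ℝ => ⌊x * (b : ℝ) ^ (i + 1)⌋₊ :=
    Nat.measurable_floor.comp (measurable_id.mul_const _)
  exact (measurable_from_nat (f := fun k : ℕ => Fin.ofNat b k)).comp h1

/-- the digits up to `n` are determined by an integer part -/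
theorem digits_iff {b : ℕ} [NeZero b] (d : ℕ → Fin b) (n : ℕ) : ∃ N : ℕ, N < b ^ n ∧
    ∀ x ∈ Ico (0 : ℝ) 1, (∀ i < n, Real.digits x b i = d i) ↔ ⌊x * (b : ℝ) ^ n⌋₊ = N := by
  have hb : 0 < b := NeZero.pos b
  induction n with
  | zero =>
    refine ⟨0, by simp, fun x hx => ?_⟩
    simp only [not_lt_zero, IsEmpty.forall_iff, implies_true, pow_zero, mul_one, true_iff]
    exact Nat.floor_eq_zero.mpr hx.2
  | succ n ih =>
    obtain ⟨N, hN, hx⟩ := ih
    refine ⟨b * N + d n, ?_, fun x hx' => ?_⟩
    · have h1 : (d n : ℕ) < b := (d n).2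
      calc b * N + d n < b * N + b := by omega
        _ = b * (N + 1) := by ring
        _ ≤ b * b ^ n := Nat.mul_le_mul_left _ hN
        _ = b ^ (n + 1) := by ring
    · have h1 : (∀ i < n + 1, Real.digits x b i = d i) ↔
          (∀ i < n, Real.digits x b i = d i) ∧ Real.digits x b n = d n := by
        constructor
        · intro h
          exact ⟨fun i hi => h i (by omega), h n (by omega)⟩
        · rintro ⟨h2, h3⟩ i hi
          rcases Nat.lt_succ_iff_lt_or_eq.mp hi with h | h
          · exact h2 i h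
          · rw [h]; exact h3
      rw [h1, hx x hx']
      set K := ⌊x * (b : ℝ) ^ (n + 1)⌋₊ with hK
      have h2 : ⌊x * (b : ℝ) ^ n⌋₊ = K / b := by
        rw [hK, ← Nat.floor_div_natCast]
        congr 1
        have : (b : ℝ) ≠ 0 := by exact_mod_cast hb.ne'
        rw [pow_succ, ← mul_assoc, mul_div_cancel_right₀ _ this]
      have h3 : (Real.digits x b n : Fin b) = Fin.ofNat b K := rfl
      rw [h2, h3]
      constructor
      · rintro ⟨h4, h5⟩
        have h6 : K % b = d n := by rw [← h5]; rfl
        rw [← h4, ← h6]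
        exact (Nat.div_add_mod K b).symm
      · intro h4
        have h7 : (d n : ℕ) < b := (d n).2
        refine ⟨?_, ?_⟩
        · rw [h4, Nat.mul_add_div hb, Nat.div_eq_of_lt h7, add_zero]
        · apply Fin.ext
          show K % b = d n
          rw [h4, Nat.mul_add_mod, Nat.mod_eq_of_lt h7]

theorem map_digits (b : ℕ) [NeZero b] :
    Measure.map (fun x : ℝ => Real.digits x b) (volume.restrict (Ico (0 : ℝ) 1)) = nu b := by
  have hb : 0 < b := NeZero.pos b
  have : IsProbabilityMeasure (Measure.map (fun x : ℝ => Real.digits x b)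
      (volume.restrict (Ico (0 : ℝ) 1))) := by
    have : IsProbabilityMeasure (volume.restrict (Ico (0 : ℝ) 1)) := ⟨by simp⟩
    exact Measure.isProbabilityMeasure_map (measurable_digits b).aemeasurable
  refine ext_cyl fun d n => ?_
  have hmeas : MeasurableSet (PiNat.cylinder d n) := (PiNat.isOpen_cylinder _ d n).measurableSet
  rw [nu_cylinder, Measure.map_apply (measurable_digits b) hmeas,
    Measure.restrict_apply (measurable_digits b hmeas)]
  obtain ⟨N, hN, h⟩ := digits_iff d n
  have hbn : (0 : ℝ) < (b : ℝ) ^ n := by positivity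
  have h1 : (fun x : ℝ => Real.digits x b) ⁻¹' PiNat.cylinder d n ∩ Ico 0 1 =
      Ico ((N : ℝ) / b ^ n) ((N + 1 : ℝ) / b ^ n) := by
    ext x
    simp only [mem_inter_iff, mem_preimage, PiNat.mem_cylinder_iff]
    constructor
    · rintro ⟨hx1, hx2⟩
      have h2 := (h x hx2).mp hx1
      have hx0 : 0 ≤ x * (b : ℝ) ^ n := mul_nonneg hx2.1 hbn.le
      rw [Nat.floor_eq_iff hx0] at h2
      exact ⟨(div_le_iff₀ hbn).mpr h2.1, (lt_div_iff₀ hbn).mpr h2.2⟩
    · rintro ⟨hx1, hx2⟩
      have h3 := (div_le_iff₀ hbn).mp hx1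
      have h4 := (lt_div_iff₀ hbn).mp hx2
      have hx : x ∈ Ico (0 : ℝ) 1 := by
        constructor
        · exact le_trans (by positivity) hx1
        · refine lt_of_lt_of_le hx2 ?_
          rw [div_le_one hbn]
          exact_mod_cast hN
      refine ⟨(h x hx).mpr ?_, hx⟩
      rw [Nat.floor_eq_iff (mul_nonneg hx.1 hbn.le)]
      exact ⟨h3, h4⟩
  rw [h1, Real.volume_Ico]
  have h5 : ((N : ℝ) + 1) / b ^ n - N / b ^ n = ((b : ℝ) ^ n)⁻¹ := by
    field_simp
    ring
  rw [h5, ENNReal.ofReal_inv_of_pos hbn, ENNReal.ofReal_pow (by positivity), ENNReal.ofReal_natCast,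
    ENNReal.inv_pow]

/-- the expansion map preserves measure -/
theorem mp_ofDigits {b : ℕ} [NeZero b] (hb : 1 < b) :
    MeasurePreserving (Real.ofDigits (b := b)) (nu b) (volume.restrict (Ico (0 : ℝ) 1)) := by
  refine ⟨Real.continuous_ofDigits.measurable, ?_⟩
  rw [← map_digits b, Measure.map_map Real.continuous_ofDigits.measurable (measurable_digits b)]
  have : Measure.map (Real.ofDigits ∘ fun x : ℝ => Real.digits x b)
      (volume.restrict (Ico (0 : ℝ) 1)) = Measure.map id (volume.restrict (Ico (0 : ℝ) 1)) := by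
    apply Measure.map_congr
    filter_upwards [ae_restrict_mem measurableSet_Ico] with x hx
    exact Real.ofDigits_digits hb hx
  rw [this, Measure.map_id]

theorem mp_digits (b : ℕ) [NeZero b] :
    MeasurePreserving (fun x : ℝ => Real.digits x b) (volume.restrict (Ico (0 : ℝ) 1)) (nu b) :=
  ⟨measurable_digits b, map_digits b⟩

/-- sets of cardinality below the continuum: transfer of nullity from one base to another -/
theorem transfer {b c : ℕ} [NeZero b] [NeZero c] (hc : 1 < c)
    (h : ∀ E : Set (ℕ → Fin b), Cardinal.mk E < Cardinal.continuum → nu b E = 0)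
    (E : Set (ℕ → Fin c)) (hE : Cardinal.mk E < Cardinal.continuum) : nu c E = 0 := by
  have hmp := (mp_digits b).comp (mp_ofDigits hc)
  set g : (ℕ → Fin c) → (ℕ → Fin b) := (fun x : ℝ => Real.digits x b) ∘ Real.ofDigits with hg
  have h1 : nu b (g '' E) = 0 := h _ (lt_of_le_of_lt Cardinal.mk_image_le hE)
  have h2 : nu c (g ⁻¹' (g '' E)) = 0 := hmp.quasiMeasurePreserving.preimage_null h1
  exact measure_mono_null (subset_preimage_image g E) h2

end Pool.Agent.H339R3.CN
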