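import Pool.Agent.H339R3.CN1

/-!
The triangular shifts of the sequence space.
-/

set_option autoImplicit false

namespace Pool.Agent.H339R3.CN

open MeasureTheory Set

/-- sequences of base nine digits -/
abbrev Om : Type := ℕ → Fin 9

/-- rules: a length and a function of two prefixes of that length -/
abbrev Rule : Type := Σ k : ℕ, ((Fin k → Fin 9) × (Fin k → Fin 9) → Fin 9)

theorem exists_enum : ∃ e : ℕ → Rule, Function.Surjective e :=
  exists_surjective_nat Rule

/-- the prefix of a sequence -/
def pre (k : ℕ) (x : Om) : Fin k → Fin 9 := fun i => x i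

/-- the shift at place `p` -/
noncomputable def shift (e : ℕ → Rule) (p : ℕ) (z y : Om) : Fin 9 :=
  if (e p.unpair.1).1 ≤ p then
    (e p.unpair.1).2 (pre _ z, pre _ y) else 0

/-- the triangular map -/
noncomputable def phi (e : ℕ → Rule) (z y : Om) : Om := fun p => y p + shift e p z y

theorem pre_congr {k n : ℕ} (h : k ≤ n) {x y : Om} (hxy : ∀ i < n, x i = y i) :
    pre k x = pre k y := by
  funext i
  exact hxy i (lt_of_lt_of_le i.2 h)

theorem shift_congr (e : ℕ → Rule) (p : ℕ) (z : Om) {x y : Om} (hxy : ∀ i < p, x i = y i) :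
    shift e p z x = shift e p z y := by
  unfold shift
  split_ifs with h
  · rw [pre_congr h hxy]
  · rfl

/-- every rule is used somewhere -/
theorem exists_place {e : ℕ → Rule} (he : Function.Surjective e) (k : ℕ)
    (F : (Fin k → Fin 9) × (Fin k → Fin 9) → Fin 9) :
    ∃ p : ℕ, ∀ z y : Om, phi e z y p = y p + F (pre k z, pre k y) := by
  obtain ⟨m, hm⟩ := he ⟨k, F⟩
  refine ⟨Nat.pair m k, fun z y => ?_⟩
  have h1 : (Nat.unpair (Nat.pair m k)).1 = m := by rw [Nat.unpair_pair]
  unfold phi shift
  rw [h1, hm]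
  simp only [Nat.right_le_pair m k, if_true]

theorem measurable_pre (k : ℕ) : Measurable (pre k) :=
  measurable_pi_lambda _ fun _ => measurable_pi_apply _

theorem measurable_phi (e : ℕ → Rule) : Measurable (fun q : Om × Om => phi e q.1 q.2) := by
  refine measurable_pi_lambda _ fun p => ?_
  have h1 : Measurable fun q : Om × Om => q.2 p := (measurable_pi_apply p).comp measurable_snd
  have h2 : Measurable fun q : Om × Om => shift e p q.1 q.2 := by
    unfold shift
    split_ifs with h
    · have h3 : Measurable fun q : Om × Om => (pre (e p.unpair.1).1 q.1, pre (e p.unpair.1).1 q.2) :=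
        ((measurable_pre _).comp measurable_fst).prodMk ((measurable_pre _).comp measurable_snd)
      exact (Measurable.of_discrete (f := (e p.unpair.1).2)).comp h3
    · exact measurable_const
  have h4 : Measurable fun r : Fin 9 × Fin 9 => r.1 + r.2 := Measurable.of_discrete
  exact h4.comp (h1.prodMk h2)

theorem measurable_phi_right (e : ℕ → Rule) (z : Om) : Measurable (phi e z) :=
  (measurable_phi e).comp (measurable_const.prodMk measurable_id)

theorem phi_cyl (e : ℕ → Rule) (z x : Om) (n : ℕ) :
    ∃ x' : Om, ∀ y : Om, (∀ i < n, phi e z y i = x i) ↔ (∀ i < n, y i = x' i) := by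
  induction n with
  | zero => exact ⟨x, fun y => by simp⟩
  | succ n ih =>
    obtain ⟨x', hx'⟩ := ih
    refine ⟨Function.update x' n (x n - shift e n z x'), fun y => ?_⟩
    have h1 : ∀ u v : Om, (∀ i < n + 1, u i = v i) ↔ (∀ i < n, u i = v i) ∧ u n = v n := by
      intro u v
      constructor
      · intro h
        exact ⟨fun i hi => h i (by omega), h n (by omega)⟩
      · rintro ⟨h2, h3⟩ i hi
        rcases Nat.lt_succ_iff_lt_or_eq.mp hi with h | h
        · exact h2 i h
        · rw [h]; exact h3
    rw [h1, h1, hx' y]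
    have h2 : (∀ i < n, y i = Function.update x' n (x n - shift e n z x') i) ↔
        ∀ i < n, y i = x' i := by
      constructor
      · intro h i hi
        rw [h i hi, Function.update_of_ne (by omega)]
      · intro h i hi
        rw [h i hi, Function.update_of_ne (by omega)]
    rw [h2, Function.update_self]
    constructor
    · rintro ⟨h3, h4⟩
      refine ⟨h3, ?_⟩
      have h5 : y n + shift e n z y = x n := h4
      rw [← h5, shift_congr e n z h3]
      abel
    · rintro ⟨h3, h4⟩
      refine ⟨h3, ?_⟩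
      show y n + shift e n z y = x n
      rw [h4, shift_congr e n z h3]
      abel

/-- the triangular maps preserve the uniform measure -/
theorem mp_phi (e : ℕ → Rule) (z : Om) : MeasurePreserving (phi e z) (nu 9) (nu 9) := by
  refine ⟨measurable_phi_right e z, ?_⟩
  have : IsProbabilityMeasure (Measure.map (phi e z) (nu 9)) :=
    Measure.isProbabilityMeasure_map (measurable_phi_right e z).aemeasurable
  refine ext_cyl fun x n => ?_
  have hmeas : MeasurableSet (PiNat.cylinder x n) := (PiNat.isOpen_cylinder _ x n).measurableSet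
  rw [Measure.map_apply (measurable_phi_right e z) hmeas, nu_cylinder]
  obtain ⟨x', hx'⟩ := phi_cyl e z x n
  have h1 : phi e z ⁻¹' PiNat.cylinder x n = PiNat.cylinder x' n := by
    ext y
    simp only [mem_preimage, PiNat.mem_cylinder_iff]
    exact hx' y
  rw [h1, nu_cylinder]

/-- the elements of `X` avoiding `ρ` -/
def avoid (ρ : Om) : Set Om := {x | ∀ p, x p ≠ ρ p}

/-- finitely many distinct sequences have distinct prefixes -/
theorem exists_sep {ι : Type} [Finite ι] {f : ι → Om} (hf : Function.Injective f) :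
    ∃ k₀ : ℕ, ∀ k ≥ k₀, Function.Injective fun i => pre k (f i) := by
  classical
  have : Fintype ι := Fintype.ofFinite ι
  have h1 : ∀ q : ι × ι, ∃ m : ℕ, q.1 ≠ q.2 → f q.1 m ≠ f q.2 m := by
    intro q
    by_cases h : q.1 = q.2
    · exact ⟨0, fun h' => absurd h h'⟩
    · have h2 : f q.1 ≠ f q.2 := fun h3 => h (hf h3)
      obtain ⟨m, hm⟩ := Function.ne_iff.mp h2
      exact ⟨m, fun _ => hm⟩
  choose m hm using h1
  refine ⟨(Finset.univ.sup m) + 1, fun k hk i j hij => ?_⟩
  by_contra hne
  have h2 := hm (i, j) hne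
  have h3 : m (i, j) < k := by
    have : m (i, j) ≤ Finset.univ.sup m := Finset.le_sup (Finset.mem_univ _)
    omega
  exact h2 (congrFun hij ⟨m (i, j), h3⟩)

/-- for fixed `y` few `z` give sequences avoiding `ρ` -/
theorem finite_avoid {e : ℕ → Rule} (he : Function.Surjective e) (y ρ : Om) :
    {z : Om | phi e z y ∈ avoid ρ}.Finite := by
  by_contra hinf
  have hinf' : {z : Om | phi e z y ∈ avoid ρ}.Infinite := hinf
  have := hinf'.to_subtype
  let g : Fin 9 → {z : Om | phi e z y ∈ avoid ρ} := fun j => Infinite.natEmbedding _ (j : ℕ)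
  have hg : Function.Injective fun j => (g j : Om) := by
    intro i j hij
    have h1 := (Infinite.natEmbedding _).injective (Subtype.ext hij)
    exact Fin.ext h1
  obtain ⟨k, hk⟩ := exists_sep hg
  have hk' := hk k le_rfl
  obtain ⟨p, hp⟩ := exists_place he k (fun q => Function.extend (fun j => pre k (g j : Om)) id 0 q.1)
  have h2 : ∀ j : Fin 9, phi e (g j) y p = y p + j := by
    intro j
    rw [hp]
    show y p + Function.extend (fun j => pre k (g j : Om)) id 0 (pre k (g j : Om)) = _
    rw [hk'.extend_apply]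
    rfl
  have h3 := (g (ρ p - y p)).2 p
  apply h3
  rw [h2]
  abel

/-- the first case -/
theorem case_A {e : ℕ → Rule} (he : Function.Surjective e) {Y : Set Om}
    (hY : Cardinal.mk Y < Cardinal.continuum) :
    ∃ z : Om, ∀ ρ : Om, (phi e z '' Y ∩ avoid ρ).Finite := by
  classical
  by_contra hcon
  push Not at hcon
  choose ρ hρ using hcon
  have h1 : ∀ z : Om, {y ∈ Y | phi e z y ∈ avoid (ρ z)}.Infinite := by
    intro z hfin
    apply hρ z
    refine (hfin.image (phi e z)).subset ?_
    rintro _ ⟨⟨y, hy, rfl⟩, h2⟩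
    exact ⟨y, ⟨hy, h2⟩, rfl⟩
  -- nine points for every z
  have h2 : ∀ z : Om, ∃ t : Fin 9 → Y, Function.Injective t ∧
      ∀ j, phi e z (t j) ∈ avoid (ρ z) := by
    intro z
    have := (h1 z).to_subtype
    let em := Infinite.natEmbedding {y ∈ Y | phi e z y ∈ avoid (ρ z)}
    refine ⟨fun j => ⟨(em (j : ℕ) : Om), (em (j : ℕ)).2.1⟩, ?_, fun j => (em (j : ℕ)).2.2⟩
    intro i j hij
    have h3 : (em (i : ℕ) : Om) = (em (j : ℕ) : Om) := by
      have h4 := congrArg (fun q : Y => (q : Om)) hij
      exact h4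
    exact Fin.ext (em.injective (Subtype.ext h3))
  choose t ht1 ht2 using h2
  -- pigeonhole
  have h3 : ∃ s : (Fin 9 → Y) ⊕ ℕ, (((fun z => Sum.inl (t z)) : Om → (Fin 9 → Y) ⊕ ℕ) ⁻¹' {s}).Infinite := by
    have hΩ : Cardinal.mk Om = Cardinal.continuum := by
      show Cardinal.mk (ℕ → Fin 9) = _
      rw [← Cardinal.power_def, Cardinal.mk_fin, Cardinal.mk_nat]
      exact Cardinal.nat_power_aleph0 (by norm_num)
    have hsum : Cardinal.mk ((Fin 9 → Y) ⊕ ℕ) < Cardinal.mk Om := by
      rw [hΩ, Cardinal.mk_sum]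
      simp only [Cardinal.lift_uzero, Cardinal.mk_nat]
      refine Cardinal.add_lt_of_lt Cardinal.aleph0_le_continuum ?_ Cardinal.aleph0_lt_continuum
      rw [← Cardinal.power_def, Cardinal.mk_fin]
      by_cases hfin : Cardinal.mk Y < Cardinal.aleph0
      · exact lt_trans (Cardinal.power_lt_aleph0 hfin Cardinal.natCast_lt_aleph0)
          Cardinal.aleph0_lt_continuum
      · push Not at hfin
        rw [Cardinal.power_natCast, Cardinal.power_nat_eq hfin (by norm_num)]
        exact hY
    obtain ⟨s, hs⟩ := Cardinal.infinite_pigeonhole_card_lt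
      (fun z => Sum.inl (t z) : Om → (Fin 9 → Y) ⊕ ℕ) hsum
      (by rw [Cardinal.aleph0_le_mk_iff]; infer_instance)
    refine ⟨s, ?_⟩
    rw [← Set.infinite_coe_iff, ← Cardinal.aleph0_le_mk_iff]
    refine le_trans ?_ hs.le
    rw [Cardinal.aleph0_le_mk_iff]; infer_instance
  obtain ⟨s, hs⟩ := h3
  obtain ⟨z₀, hz₀⟩ := hs.nonempty
  have hs' : {z : Om | t z = t z₀}.Infinite := by
    refine hs.mono ?_
    intro z hz
    have h4 : Sum.inl (t z) = s := hz
    have h5 : Sum.inl (t z₀) = s := hz₀
    exact Sum.inl_injective (h4.trans h5.symm)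
  have := hs'.to_subtype
  let W := Fin 9 → Fin 9
  let em := Infinite.natEmbedding {z : Om | t z = t z₀}
  let g : W → Om := fun w => em (Fintype.equivFin W w : ℕ)
  have hg : Function.Injective g := by
    intro w w' h
    have h6 := em.injective (Subtype.ext h)
    exact (Fintype.equivFin W).injective (Fin.ext h6)
  have hgt : ∀ w, t (g w) = t z₀ := fun w => (em (Fintype.equivFin W w : ℕ)).2
  obtain ⟨k₁, hk₁⟩ := exists_sep hg
  have hty : Function.Injective fun j => (t z₀ j : Om) := fun i j h => ht1 z₀ (Subtype.ext h)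
  obtain ⟨k₂, hk₂⟩ := exists_sep hty
  set k := max k₁ k₂ with hk
  have i1 := hk₁ k (le_max_left _ _)
  have i2 := hk₂ k (le_max_right _ _)
  have i3 : Function.Injective fun q : W × Fin 9 => (pre k (g q.1), pre k (t z₀ q.2 : Om)) := by
    rintro ⟨w, j⟩ ⟨w', j'⟩ h
    have h7 := (Prod.mk.inj h).1
    have h8 := (Prod.mk.inj h).2
    exact Prod.ext (i1 h7) (i2 h8)
  obtain ⟨p, hp⟩ := exists_place he k
    (Function.extend (fun q : W × Fin 9 => (pre k (g q.1), pre k (t z₀ q.2 : Om)))
      (fun q => q.1 q.2) 0)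
  have h9 : ∀ (w : W) (j : Fin 9), phi e (g w) (t z₀ j) p = (t z₀ j : Om) p + w j := by
    intro w j
    rw [hp]
    congr 1
    exact i3.extend_apply _ _ (w, j)
  -- choose the shifts
  let w : W := fun j => j - (t z₀ j : Om) p
  have h10 : ∀ j, phi e (g w) (t z₀ j) p = j := by
    intro j
    rw [h9]
    show (t z₀ j : Om) p + (j - (t z₀ j : Om) p) = j
    abel
  have h11 := ht2 (g w) (ρ (g w) p) p
  rw [hgt] at h11
  exact h11 (h10 _)

end Pool.Agent.H339R3.CN
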