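import Pool.Agent.H339R3.CN2

/-!
A non-null set meeting every avoiding set in a small set.
-/

set_option autoImplicit false

namespace Pool.Agent.H339R3.CN

open MeasureTheory Set Cardinal

theorem mk_Om : #Om = 𝔠 := by
  show #(ℕ → Fin 9) = _
  rw [← Cardinal.power_def, Cardinal.mk_fin, Cardinal.mk_nat]
  exact Cardinal.nat_power_aleph0 (by norm_num)

/-- the index set, well ordered of type the continuum -/
abbrev Idx : Type := (𝔠 : Cardinal.{0}).ord.ToType

theorem mk_Idx : #Idx = 𝔠 := Cardinal.mk_ord_toType _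

theorem exists_null_enum : ∃ N : Idx → {N : Set Om // MeasurableSet N ∧ nu 9 N = 0},
    Function.Surjective N := by
  have h1 : #{N : Set Om // MeasurableSet N ∧ nu 9 N = 0} ≤ #Idx := by
    rw [mk_Idx]
    have h2 : #{N : Set Om // MeasurableSet N ∧ nu 9 N = 0} ≤ #{t : Set Om | MeasurableSet t} :=
      Cardinal.mk_le_mk_of_subset (s := {N : Set Om | MeasurableSet N ∧ nu 9 N = 0})
        (fun N hN => hN.1)
    refine h2.trans ?_
    have h3 := MeasurableSpace.cardinal_measurableSet_le_continuum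
      (s := MeasurableSpace.countableGeneratingSet Om)
      ((Cardinal.mk_le_aleph0_iff.mpr
        (MeasurableSpace.countable_countableGeneratingSet (α := Om)).to_subtype).trans
        Cardinal.aleph0_le_continuum)
    rwa [MeasurableSpace.generateFrom_countableGeneratingSet] at h3
  obtain ⟨f⟩ := h1
  have : Nonempty {N : Set Om // MeasurableSet N ∧ nu 9 N = 0} :=
    ⟨⟨∅, MeasurableSet.empty, measure_empty⟩⟩
  exact ⟨Function.invFun f, Function.invFun_surjective f.injective⟩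

theorem exists_seq_enum : ∃ ρ : Idx → Om, Function.Surjective ρ := by
  have h : #Idx = #Om := by rw [mk_Idx, mk_Om]
  obtain ⟨f⟩ := Cardinal.eq.mp h
  exact ⟨f, f.surjective⟩

theorem fubini {e : ℕ → Rule} {N : Set Om} (hN : MeasurableSet N) (h0 : nu 9 N = 0) :
    ∃ y : Om, nu 9 {z | phi e z y ∈ N} = 0 := by
  have hm : MeasurableSet {q : Om × Om | phi e q.1 q.2 ∈ N} := measurable_phi e hN
  have h1 : (nu 9).prod (nu 9) {q : Om × Om | phi e q.1 q.2 ∈ N} = 0 := by
    rw [Measure.measure_prod_null hm]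
    refine Filter.Eventually.of_forall fun z => ?_
    show nu 9 (phi e z ⁻¹' N) = 0
    rw [(mp_phi e z).measure_preimage hN.nullMeasurableSet, h0]
  have h2 : (nu 9).prod (nu 9) (Prod.swap ⁻¹' {q : Om × Om | phi e q.1 q.2 ∈ N}) = 0 := by
    rw [(Measure.measurePreserving_swap (μ := nu 9) (ν := nu 9)).measure_preimage
      hm.nullMeasurableSet, h1]
  rw [Measure.measure_prod_null (measurable_swap hm)] at h2
  obtain ⟨y, hy⟩ := h2.exists
  exact ⟨y, hy⟩

theorem case_B {e : ℕ → Rule} (he : Function.Surjective e)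
    (hB : ∀ E : Set Om, #E < 𝔠 → nu 9 E = 0) :
    ∃ X : Set Om, nu 9 X ≠ 0 ∧ ∀ ρ : Om, #(X ∩ avoid ρ : Set Om) < 𝔠 := by
  obtain ⟨N, hN⟩ := exists_null_enum
  obtain ⟨ρ, hρ⟩ := exists_seq_enum
  have key : ∀ a : Idx, ∃ x : Om, x ∉ (N a : Set Om) ∧ ∀ b < a, x ∉ avoid (ρ b) := by
    intro a
    obtain ⟨y, hy⟩ := fubini (e := e) (N a).2.1 (N a).2.2
    have hE : nu 9 (⋃ b : Iio a, {z | phi e z y ∈ avoid (ρ b)}) = 0 := by
      apply hB
      refine (Cardinal.mk_iUnion_le _).trans_lt ?_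
      refine Cardinal.mul_lt_of_lt Cardinal.aleph0_le_continuum
        (Cardinal.mk_Iio_toType_ord_lt a) ?_
      refine lt_of_le_of_lt (ciSup_le' fun b => ?_) Cardinal.aleph0_lt_continuum
      exact Cardinal.mk_le_aleph0_iff.mpr (finite_avoid he y (ρ b)).countable.to_subtype
    have h1 : ∀ᵐ z ∂(nu 9), z ∉ (⋃ b : Iio a, {z | phi e z y ∈ avoid (ρ b)}) :=
      measure_eq_zero_iff_ae_notMem.mp hE
    have h2 : ∀ᵐ z ∂(nu 9), z ∉ {z | phi e z y ∈ (N a : Set Om)} :=
      measure_eq_zero_iff_ae_notMem.mp hy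
    obtain ⟨z, hz1, hz2⟩ := (h1.and h2).exists
    refine ⟨phi e z y, hz2, fun b hb hcon => hz1 ?_⟩
    exact mem_iUnion.mpr ⟨⟨b, hb⟩, hcon⟩
  choose x hx1 hx2 using key
  refine ⟨range x, fun h0 => ?_, fun σ => ?_⟩
  · obtain ⟨M, hM1, hM2, hM3⟩ := exists_measurable_superset_of_null h0
    obtain ⟨a, ha⟩ := hN ⟨M, hM2, hM3⟩
    have h3 := hx1 a
    rw [ha] at h3
    exact h3 (hM1 ⟨a, rfl⟩)
  · obtain ⟨b, rfl⟩ := hρ σ
    have h4 : range x ∩ avoid (ρ b) ⊆ x '' Iic b := by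
      rintro _ ⟨⟨a, rfl⟩, ha⟩
      refine ⟨a, ?_, rfl⟩
      by_contra hlt
      exact hx2 a b (not_le.mp hlt) ha
    refine (Cardinal.mk_le_mk_of_subset h4).trans_lt (Cardinal.mk_image_le.trans_lt ?_)
    have h5 : (Iic b : Set Idx) = insert b (Iio b) := by
      ext a
      simp only [mem_Iic, mem_insert_iff, mem_Iio]
      exact le_iff_eq_or_lt
    rw [h5]
    refine (Cardinal.mk_insert_le).trans_lt ?_
    exact Cardinal.add_lt_of_lt Cardinal.aleph0_le_continuum (Cardinal.mk_Iio_toType_ord_lt b)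
      (Cardinal.one_lt_aleph0.trans Cardinal.aleph0_lt_continuum)

theorem nu_two_singleton (x : ℕ → Fin 2) : nu 2 {x} = 0 := by
  have h : ∀ n : ℕ, nu 2 {x} ≤ ((2 : ENNReal)⁻¹) ^ n := by
    intro n
    have h1 := nu_cylinder x n
    have h2 : ({x} : Set (ℕ → Fin 2)) ⊆ PiNat.cylinder x n := by
      rintro y rfl
      exact PiNat.self_mem_cylinder _ _
    refine (measure_mono h2).trans ?_
    rw [h1]
    simp
  have h3 : Filter.Tendsto (fun n : ℕ => ((2 : ENNReal)⁻¹) ^ n) Filter.atTop (nhds 0) :=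
    ENNReal.tendsto_pow_atTop_nhds_zero_of_lt_one (by
      rw [ENNReal.inv_lt_one]; norm_num)
  exact le_antisymm (ge_of_tendsto' h3 h) zero_le

/-- the combined statement -/
theorem exists_X : ∃ X : Set Om, nu 9 X ≠ 0 ∧ ∀ (ρ : Om) (S : Set (ℕ → Fin 2)),
    #S ≤ #(X ∩ avoid ρ : Set Om) → nu 2 S = 0 := by
  obtain ⟨e, he⟩ := exists_enum
  by_cases hB : ∀ E : Set Om, #E < 𝔠 → nu 9 E = 0
  · obtain ⟨X, hX1, hX2⟩ := case_B he hB
    refine ⟨X, hX1, fun ρ S hS => ?_⟩
    exact transfer (by norm_num) hB S (hS.trans_lt (hX2 ρ))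
  · push Not at hB
    obtain ⟨Y, hY1, hY2⟩ := hB
    obtain ⟨z, hz⟩ := case_A he hY1
    refine ⟨phi e z '' Y, fun h0 => ?_, fun ρ S hS => ?_⟩
    · apply hY2
      exact measure_mono_null (subset_preimage_image (phi e z) Y)
        ((mp_phi e z).quasiMeasurePreserving.preimage_null h0)
    · have h1 : #S < ℵ₀ := hS.trans_lt (Cardinal.lt_aleph0_iff_finite.mpr (hz ρ).to_subtype)
      have h2 : S.Finite := Set.finite_coe_iff.mp (Cardinal.lt_aleph0_iff_finite.mp h1)
      have h3 : S = ⋃ x ∈ S, {x} := by simp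
      rw [h3]
      exact (measure_biUnion_null_iff h2.countable).mpr fun x _ => nu_two_singleton x

end Pool.Agent.H339R3.CN
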