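import Mathlib

/-!
The Cantor measure on the real line: the image of the fair coin tossing measure on sequences of
zeros and ones under the map `(x_n) ↦ ∑ 2 x_n 3^{-(n+1)}`, with `n` running through `0, 1, 2, ...`.
-/

set_option autoImplicit false

namespace Pool.Agent.H339R3.CN

open MeasureTheory Set

/-- the fair coin: half of the unit mass at `0` plus half of the unit mass at `1` -/
noncomputable def coin : Measure (Fin 2) := (2⁻¹ : ENNReal) • (Measure.dirac 0 + Measure.dirac 1)

instance : IsProbabilityMeasure coin := by
  constructor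
  rw [coin, Measure.smul_apply, Measure.add_apply, Measure.dirac_apply_of_mem (mem_univ _),
    Measure.dirac_apply_of_mem (mem_univ _), smul_eq_mul, one_add_one_eq_two]
  exact ENNReal.inv_mul_cancel (by norm_num) (by norm_num)

/-- the map `(x_n) ↦ ∑ 2 x_n 3^{-(n+1)}`, `n = 0, 1, 2, ...` -/
noncomputable def cantorMap (x : ℕ → Fin 2) : ℝ := ∑' n : ℕ, 2 * ((x n : ℕ) : ℝ) / 3 ^ (n + 1)

/-- the Cantor measure, the image of the product measure -/
noncomputable def cantorMeasure : Measure ℝ :=
  (Measure.infinitePi fun _ : ℕ => coin).map cantorMap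

end Pool.Agent.H339R3.CN
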