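import Pool.Agent.H339R3.CN3
import Pool.Agent.H339R3.CNDefs

/-!
The digit lemma and the Cantor measure.
-/

set_option autoImplicit false

namespace Pool.Agent.H339R3.CN

open MeasureTheory Set Cardinal

theorem coin_eq : coin = uni 2 := by
  refine Measure.ext_of_singleton fun i => ?_
  rw [uni_singleton, coin, Measure.smul_apply, Measure.add_apply, smul_eq_mul]
  fin_cases i <;> simp

/-- ternary digits -/
def tern (x : ℕ → Fin 2) : ℕ → Fin 3 := fun n => if x n = 0 then 0 else 2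

theorem tern_val (x : ℕ → Fin 2) (n : ℕ) : ((tern x n : ℕ) : ℝ) = 2 * ((x n : ℕ) : ℝ) := by
  unfold tern
  have h : x n = 0 ∨ x n = 1 := by
    generalize x n = a
    fin_cases a <;> simp
  rcases h with h | h <;> simp [h]

theorem cantorMap_eq (x : ℕ → Fin 2) : cantorMap x = Real.ofDigits (tern x) := by
  unfold cantorMap Real.ofDigits Real.ofDigitsTerm
  refine tsum_congr fun n => ?_
  rw [tern_val, div_eq_mul_inv]
  norm_num

theorem cantorMap_injective : Function.Injective cantorMap := by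
  intro x y h
  rw [cantorMap_eq, cantorMap_eq] at h
  have hne : ∀ (x : ℕ → Fin 2) n, tern x n ≠ 1 := by
    intro x n
    unfold tern
    split_ifs <;> decide
  have h1 := ofDigits_zero_two_sequence_unique (hne x) (hne y) h
  funext n
  have h2 := congrFun h1 n
  unfold tern at h2
  have h3 : ∀ a b : Fin 2, (if a = 0 then (0 : Fin 3) else 2) = (if b = 0 then 0 else 2) → a = b := by
    decide
  exact h3 _ _ h2

theorem measurable_cantorMap : Measurable cantorMap := by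
  have h : cantorMap = Real.ofDigits ∘ tern := funext cantorMap_eq
  rw [h]
  refine Real.continuous_ofDigits.measurable.comp ?_
  refine measurable_pi_lambda _ fun n => ?_
  exact (Measurable.of_discrete (f := fun a : Fin 2 => if a = 0 then (0 : Fin 3) else 2)).comp
    (measurable_pi_apply n)

theorem cantorMeasure_apply (S : Set ℝ) : cantorMeasure S = nu 2 (cantorMap ⁻¹' S) := by
  have h : (Measure.infinitePi fun _ : ℕ => coin) = nu 2 := by
    unfold nu
    congr 1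
    funext _
    exact coin_eq
  unfold cantorMeasure
  rw [(measurable_cantorMap.measurableEmbedding cantorMap_injective).map_apply, h]

/-- integer part of a scaled expansion -/
theorem int_part {b : ℕ} (hb : 0 < b) (a : ℕ → Fin b) (n : ℕ) :
    ∃ N : ℕ, (b : ℝ) ^ n * ∑ i ∈ Finset.range n, Real.ofDigitsTerm a i = N := by
  induction n with
  | zero => exact ⟨0, by simp⟩
  | succ n ih =>
    obtain ⟨N, hN⟩ := ih
    refine ⟨b * N + a n, ?_⟩
    have hb' : (b : ℝ) ≠ 0 := by exact_mod_cast hb.ne'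
    rw [Finset.sum_range_succ, mul_add, pow_succ, mul_right_comm, hN, Real.ofDigitsTerm]
    push_cast
    field_simp
    ring

theorem scaled {b : ℕ} (hb : 0 < b) (a : ℕ → Fin b) (n : ℕ) :
    ∃ (N : ℕ) (r : ℝ), 0 ≤ r ∧ r ≤ 1 ∧ (b : ℝ) ^ n * Real.ofDigits a = N + r := by
  obtain ⟨N, hN⟩ := int_part hb a n
  refine ⟨N, Real.ofDigits (fun i => a (i + n)), Real.ofDigits_nonneg _, Real.ofDigits_le_one _, ?_⟩
  have hb' : (b : ℝ) ≠ 0 := by exact_mod_cast hb.ne'
  rw [Real.ofDigits_eq_sum_add_ofDigits a n, mul_add, hN, ← mul_assoc,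
    mul_inv_cancel₀ (pow_ne_zero _ hb'), one_mul]

theorem scaled_succ {b : ℕ} (hb : 0 < b) (a : ℕ → Fin b) (n : ℕ) :
    ∃ (N : ℕ) (r : ℝ), 0 ≤ r ∧ r ≤ 1 ∧ (b : ℝ) ^ (n + 1) * Real.ofDigits a = b * N + a n + r := by
  obtain ⟨N, hN⟩ := int_part hb a n
  refine ⟨N, Real.ofDigits (fun i => a (i + (n + 1))), Real.ofDigits_nonneg _,
    Real.ofDigits_le_one _, ?_⟩
  have hb' : (b : ℝ) ≠ 0 := by exact_mod_cast hb.ne'
  rw [Real.ofDigits_eq_sum_add_ofDigits a (n + 1), mul_add, Finset.sum_range_succ, mul_add,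
    pow_succ, mul_right_comm, hN, Real.ofDigitsTerm]
  field_simp
  ring

theorem scaled_two (x : ℕ → Fin 2) (p : ℕ) :
    ∃ (N d : ℕ) (r : ℝ), (d = 0 ∨ d = 2 ∨ d = 6 ∨ d = 8) ∧ 0 ≤ r ∧ r ≤ 1 ∧
      (9 : ℝ) ^ (p + 1) * cantorMap x = 9 * N + d + r := by
  rw [cantorMap_eq]
  obtain ⟨N, hN⟩ := int_part (b := 3) (by norm_num) (tern x) (2 * p)
  refine ⟨N, 3 * tern x (2 * p) + tern x (2 * p + 1),
    Real.ofDigits (fun i => tern x (i + (2 * p + 1 + 1))), ?_, Real.ofDigits_nonneg _,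
    Real.ofDigits_le_one _, ?_⟩
  · unfold tern
    split_ifs <;> simp
  · have h9 : (9 : ℝ) ^ (p + 1) = 3 ^ (2 * p) * 9 := by
      rw [pow_succ, pow_mul]; norm_num
    have h3 : ((3 : ℕ) : ℝ) = 3 := by norm_num
    rw [h3] at hN
    rw [Real.ofDigits_eq_sum_add_ofDigits (tern x) (2 * p + 1 + 1), Finset.sum_range_succ,
      Finset.sum_range_succ, Real.ofDigitsTerm, Real.ofDigitsTerm, h3, h9]
    have h4 : (3 : ℝ) ^ (2 * p) ≠ 0 := by positivity
    have h5 : (3 : ℝ) ^ (2 * p) * 9 * (∑ i ∈ Finset.range (2 * p), Real.ofDigitsTerm (tern x) i) =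
        9 * N := by
      rw [← hN]; ring
    have h6 : (3 : ℝ) ^ (2 * p) * 9 * (((3 : ℝ) ^ (2 * p + 1))⁻¹) = 3 := by
      rw [pow_succ]; field_simp; norm_num
    have h7 : (3 : ℝ) ^ (2 * p) * 9 * (((3 : ℝ) ^ (2 * p + 1 + 1))⁻¹) = 1 := by
      rw [pow_succ, pow_succ]; field_simp; norm_num
    push_cast
    linear_combination h5 + (tern x (2 * p) : ℝ) * h6 + (tern x (2 * p + 1) : ℝ) * h7 +
      Real.ofDigits (fun i => tern x (i + (2 * p + 1 + 1))) * h7

/-- the forbidden digit -/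
theorem digit_lemma (t : ℝ) : ∃ ρ : Om, ∀ (y : Om) (x : ℕ → Fin 2),
    Real.ofDigits y + t = cantorMap x → y ∈ avoid ρ := by
  refine ⟨fun p => ⟨((⌊-((9 : ℝ) ^ (p + 1) * t)⌋ + 4) % 9).toNat, by omega⟩, ?_⟩
  intro y x h p hp
  obtain ⟨A, r, hr0, hr1, hy⟩ := scaled_succ (b := 9) (by norm_num) y p
  obtain ⟨B, d, s, hd, hs0, hs1, hc⟩ := scaled_two x p
  have h9 : ((9 : ℕ) : ℝ) = 9 := by norm_num
  rw [h9] at hy
  set m : ℤ := ⌊-((9 : ℝ) ^ (p + 1) * t)⌋ with hm
  have hm1 := Int.floor_le (-((9 : ℝ) ^ (p + 1) * t))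
  have hm2 := Int.lt_floor_add_one (-((9 : ℝ) ^ (p + 1) * t))
  rw [← hm] at hm1 hm2
  -- the digit as a natural number
  have hv : (y p : ℕ) = ((m + 4) % 9).toNat := by rw [hp]
  have hv' : ((y p : ℕ) : ℤ) = (m + 4) % 9 := by rw [hv]; omega
  -- the integer equation
  have h1 : (9 : ℝ) ^ (p + 1) * Real.ofDigits y + (9 : ℝ) ^ (p + 1) * t =
      (9 : ℝ) ^ (p + 1) * cantorMap x := by rw [← h]; ring
  rw [hy, hc] at h1
  set E : ℤ := (9 * A + (y p : ℕ) : ℤ) - (9 * B + d) - m with hE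
  have hEr : (E : ℝ) = s - r + (-((9 : ℝ) ^ (p + 1) * t) - m) := by
    rw [hE]; push_cast; linear_combination h1
  have hE1 : (-2 : ℤ) < E := by
    have : (-2 : ℝ) < E := by rw [hEr]; linarith
    exact_mod_cast this
  have hE2 : E < 2 := by
    have : (E : ℝ) < 2 := by rw [hEr]; linarith
    exact_mod_cast this
  rcases hd with rfl | rfl | rfl | rfl <;> push_cast at hE <;> omega

theorem main : ∃ X : Set ℝ, 0 < volume X ∧ ∀ t : ℝ, cantorMeasure ((fun x => x + t) '' X) = 0 := by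
  obtain ⟨X, hX0, hX⟩ := exists_X
  refine ⟨Real.ofDigits '' X, ?_, fun t => ?_⟩
  · rw [pos_iff_ne_zero]
    intro h0
    apply hX0
    have h1 : (volume.restrict (Ico (0 : ℝ) 1)) (Real.ofDigits '' X) = 0 :=
      le_antisymm ((Measure.restrict_apply_le _ _).trans h0.le) zero_le
    exact measure_mono_null (subset_preimage_image _ X)
      ((mp_ofDigits (b := 9) (by norm_num)).quasiMeasurePreserving.preimage_null h1)
  · obtain ⟨ρ, hρ⟩ := digit_lemma t
    rw [cantorMeasure_apply]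
    refine hX ρ _ ?_
    have key : ∀ w : cantorMap ⁻¹' ((fun x => x + t) '' (Real.ofDigits '' X)),
        ∃ y : (X ∩ avoid ρ : Set Om), Real.ofDigits (y : Om) + t = cantorMap (w : ℕ → Fin 2) := by
      rintro ⟨w, hw⟩
      obtain ⟨_, ⟨y, hy, rfl⟩, h⟩ := hw
      exact ⟨⟨y, hy, hρ y w h⟩, h⟩
    choose f hf using key
    refine Cardinal.mk_le_of_injective (f := f) ?_
    intro w w' h
    apply Subtype.ext
    apply cantorMap_injective
    rw [← hf w, ← hf w', h]

end Pool.Agent.H339R3.CN
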