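import Pool.Agent.H339R3.Final2

/-!
The concrete faithful representation and the final result.
-/

set_option autoImplicit false

namespace Pool.Agent.H339R3

/-- rational functions in one variable -/
abbrev k1 : Type := FractionRing (MvPolynomial (Fin 1) ℂ)

/-- the variable of `k1` -/
noncomputable def b0 : k1 := algebraMap (MvPolynomial (Fin 1) ℂ) k1 (MvPolynomial.X 0)

/-- embedding of the polynomials -/
noncomputable def emb : MvPolynomial (Fin 2) ℂ →+* RatFunc k1 :=
  ((algebraMap (Polynomial k1) (RatFunc k1)).comp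
    (Polynomial.mapRingHom (algebraMap (MvPolynomial (Fin 1) ℂ) k1))).comp
    (MvPolynomial.finSuccEquiv ℂ 1).toRingEquiv.toRingHom

theorem emb_injective : Function.Injective emb := by
  unfold emb
  rw [RingHom.coe_comp, RingHom.coe_comp]
  refine ((RatFunc.algebraMap_injective k1).comp ?_).comp ?_
  · exact Polynomial.map_injective _ (IsFractionRing.injective _ _)
  · exact (MvPolynomial.finSuccEquiv ℂ 1).injective

theorem emb_apply (p : MvPolynomial (Fin 2) ℂ) : emb p = algebraMap (Polynomial k1) (RatFunc k1)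
    (Polynomial.map (algebraMap (MvPolynomial (Fin 1) ℂ) k1) (MvPolynomial.finSuccEquiv ℂ 1 p)) :=
  rfl

theorem emb_X0 : emb (MvPolynomial.X 0) = RatFunc.X := by
  rw [emb_apply, MvPolynomial.finSuccEquiv_X_zero, Polynomial.map_X, RatFunc.algebraMap_X]

theorem emb_X1 : emb (MvPolynomial.X 1) = RatFunc.C b0 := by
  have h : (1 : Fin 2) = Fin.succ 0 := rfl
  rw [emb_apply, h, MvPolynomial.finSuccEquiv_X_succ, Polynomial.map_C, RatFunc.algebraMap_C]
  rfl

theorem emb_C (c : ℂ) : emb (MvPolynomial.C c) =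
    RatFunc.C (algebraMap (MvPolynomial (Fin 1) ℂ) k1 (MvPolynomial.C c)) := by
  rw [emb_apply, MvPolynomial.finSuccEquiv_apply, MvPolynomial.eval₂Hom_C]
  rw [RingHom.comp_apply, Polynomial.map_C, RatFunc.algebraMap_C]

section theta

variable (n : ℕ) (hn : 0 < n)

include hn

theorem emb_expand_injective :
    Function.Injective (emb.comp (MvPolynomial.expand n (R := ℂ) (σ := Fin 2)).toRingHom) := by
  rw [RingHom.coe_comp]
  exact emb_injective.comp (MvPolynomial.expand_injective hn)

/-- the field embedding -/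
noncomputable def theta : KK →+* RatFunc k1 :=
  IsFractionRing.lift (emb_expand_injective n hn)

theorem theta_alg (p : MvPolynomial (Fin 2) ℂ) :
    theta n hn (algebraMap _ KK p) = emb (MvPolynomial.expand n p) :=
  IsFractionRing.lift_algebraMap _ _

theorem theta_u : theta n hn uu = RatFunc.X ^ n := by
  rw [theta_alg, MvPolynomial.expand_X, map_pow, emb_X0]

theorem theta_v : theta n hn vv = (RatFunc.C b0) ^ n := by
  rw [theta_alg, MvPolynomial.expand_X, map_pow, emb_X1]

theorem theta_C (c : ℂ) : theta n hn (algebraMap ℂ KK c) =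
    RatFunc.C (algebraMap (MvPolynomial (Fin 1) ℂ) k1 (MvPolynomial.C c)) := by
  have h : algebraMap ℂ KK c = algebraMap (MvPolynomial (Fin 2) ℂ) KK (MvPolynomial.C c) := rfl
  rw [h, theta_alg, MvPolynomial.expand_C, emb_C]

end theta

theorem b0_ne_zero : b0 ≠ 0 := by
  unfold b0
  intro h
  have := (IsFractionRing.injective (MvPolynomial (Fin 1) ℂ) k1) (h.trans (map_zero _).symm)
  exact MvPolynomial.X_ne_zero 0 this

theorem algC_ne_zero {c : ℂ} (hc : c ≠ 0) :
    algebraMap (MvPolynomial (Fin 1) ℂ) k1 (MvPolynomial.C c) ≠ 0 := by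
  intro h
  have := (IsFractionRing.injective (MvPolynomial (Fin 1) ℂ) k1) (h.trans (map_zero _).symm)
  exact hc (MvPolynomial.C_injective _ _ (this.trans (map_zero _).symm))

theorem vv_ne (d : ℂ) : vv - algebraMap ℂ KK d ≠ 0 := by
  intro h
  have h1 : algebraMap ℂ KK d = algebraMap (MvPolynomial (Fin 2) ℂ) KK (MvPolynomial.C d) := rfl
  rw [h1, sub_eq_zero] at h
  have h2 := (IsFractionRing.injective (MvPolynomial (Fin 2) ℂ) KK) h
  have h3 := congrArg (MvPolynomial.eval (fun _ => d + 1)) h2
  simp at h3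

theorem unit_sub {A : Type} [Ring A] [Algebra KK A] [Algebra ℂ A] {n : ℕ} {y : A}
    (htow : ∀ c : ℂ, algebraMap ℂ A c = algebraMap KK A (algebraMap ℂ KK c))
    (hy : y ^ n = algebraMap KK A vv) (c : ℂ) : IsUnit (y - algebraMap ℂ A c) := by
  have hc : Commute y (algebraMap ℂ A c) := (Algebra.commutes c y).symm
  have h1 := hc.geom_sum₂_mul n
  have h2 : IsUnit (y ^ n - algebraMap ℂ A c ^ n) := by
    rw [hy, ← map_pow, htow, ← map_sub]
    exact (vv_ne _).isUnit.map (algebraMap KK A)
  rw [← h1] at h2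
  have h3 : Commute (∑ i ∈ Finset.range n, y ^ i * algebraMap ℂ A c ^ (n - 1 - i))
      (y - algebraMap ℂ A c) := by
    have h4 := hc.mul_geom_sum₂ n
    show _ * _ = _ * _
    rw [h1, h4]
  exact (h3.isUnit_mul_iff.mp h2).2

end Pool.Agent.H339R3
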