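import Mathlib

/-!
The function field of the curve `w ^ 2 = t ^ 3 + m`, of transcendence degree one and not rational.
-/

set_option autoImplicit false

namespace Pool.Agent.H339R3

open Polynomial

/-- Polynomial solutions of `B ^ 2 = A ^ 3 + m d ^ 6`. -/
theorem poly_sol {m : ℂ} (hm : m ≠ 0) : ∀ (k : ℕ) (A B d : ℂ[X]), d.natDegree = k → d ≠ 0 →
    B ^ 2 = A ^ 3 + C m * d ^ 6 → ∃ c : ℂ, A = C c * d ^ 2 := by
  intro k
  induction k using Nat.strong_induction_on with
  | _ k ih =>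
    intro A B d hk hd h
    by_cases hcop : IsCoprime A d
    · by_cases hA : A = 0
      · exact ⟨0, by rw [hA, C_0, zero_mul]⟩
      by_cases hB : B = 0
      · -- A ^ 3 = - m d ^ 6
        have h1 : A ^ 3 = - (C m * d ^ 6) := by
          rw [hB] at h; linear_combination -h
        have h2 : IsCoprime (A ^ 3) (d ^ 6) := hcop.pow
        have h3 : IsUnit (d ^ 6) := by
          refine h2.isUnit_of_dvd' ?_ (dvd_refl _)
          rw [h1]
          exact (dvd_mul_left _ _).neg_right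
        have h4 : IsUnit (A ^ 3) := by
          rw [h1]
          exact ((isUnit_C.mpr hm.isUnit).mul h3).neg
        have h5 : IsUnit A := (isUnit_pow_iff (by norm_num)).mp h4
        have h6 : IsUnit d := (isUnit_pow_iff (by norm_num)).mp h3
        obtain ⟨a, ha, hA'⟩ := Polynomial.isUnit_iff.mp h5
        obtain ⟨e, he, hd'⟩ := Polynomial.isUnit_iff.mp h6
        refine ⟨a / e ^ 2, ?_⟩
        rw [← hA', ← hd', ← C_pow, ← C_mul]
        congr 1
        field_simp [he.ne_zero]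
      · have h1 : IsCoprime A B := by
          -- coprimality of A and B
          have h2 : IsCoprime (A ^ 3) (C m * d ^ 6) := by
            refine IsCoprime.mul_right ?_ hcop.pow
            exact ⟨0, C m⁻¹, by rw [zero_mul, zero_add, ← C_mul, inv_mul_cancel₀ hm, C_1]⟩
          have h3 : IsCoprime (A ^ 3) (B ^ 2) := by
            rw [h]
            have := h2.add_mul_left_right 1
            rwa [mul_one, add_comm] at this
          exact (IsCoprime.pow_iff (by norm_num) (by norm_num)).mp h3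
        have h2 : C (1 : ℂ) * A ^ 3 + C (-1 : ℂ) * B ^ 2 + C m * d ^ 6 = 0 := by
          rw [C_neg, C_1]; linear_combination -h
        have h3 := Polynomial.flt_catalan (p := 3) (q := 2) (r := 6) (by norm_num) (by norm_num)
          (by norm_num) (by norm_num) (by norm_num) (by norm_num) (by norm_num) hA hB hd h1
          one_ne_zero (by norm_num) hm h2
        obtain ⟨hA', -, hd'⟩ := h3
        obtain ⟨a, ha⟩ := natDegree_eq_zero.mp hA'
        obtain ⟨e, he⟩ := natDegree_eq_zero.mp hd'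
        have he0 : e ≠ 0 := by
          rintro rfl
          exact hd (by rw [← he, C_0])
        refine ⟨a / e ^ 2, ?_⟩
        rw [← ha, ← he, ← C_pow, ← C_mul]
        congr 1
        field_simp
    · -- common prime factor
      obtain ⟨π, hπ, hπA, hπd⟩ : ∃ π : ℂ[X], Prime π ∧ π ∣ A ∧ π ∣ d := by
        by_contra hcon
        apply hcop
        refine isCoprime_of_prime_dvd (fun hh => hd hh.2) ?_
        intro z hz h1 h2
        exact hcon ⟨z, hz, h1, h2⟩
      obtain ⟨A₁, rfl⟩ := hπA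
      obtain ⟨d₁, rfl⟩ := hπd
      have hπ0 : π ≠ 0 := hπ.ne_zero
      have hd₁ : d₁ ≠ 0 := right_ne_zero_of_mul hd
      -- π divides B
      have hB1 : π ∣ B := by
        refine hπ.dvd_of_dvd_pow (n := 2) ⟨π ^ 2 * A₁ ^ 3 + C m * (π ^ 5 * d₁ ^ 6), ?_⟩
        rw [h]; ring
      obtain ⟨B₁, rfl⟩ := hB1
      have h1 : B₁ ^ 2 = π * A₁ ^ 3 + C m * (π ^ 4 * d₁ ^ 6) := by
        apply mul_left_cancel₀ (pow_ne_zero 2 hπ0)
        linear_combination h
      have hB2 : π ∣ B₁ := by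
        refine hπ.dvd_of_dvd_pow (n := 2) ⟨A₁ ^ 3 + C m * (π ^ 3 * d₁ ^ 6), ?_⟩
        rw [h1]; ring
      obtain ⟨B₂, rfl⟩ := hB2
      have h2 : π * B₂ ^ 2 = A₁ ^ 3 + C m * (π ^ 3 * d₁ ^ 6) := by
        apply mul_left_cancel₀ hπ0
        linear_combination h1
      have hA2 : π ∣ A₁ := by
        refine hπ.dvd_of_dvd_pow (n := 3) ⟨B₂ ^ 2 - C m * (π ^ 2 * d₁ ^ 6), ?_⟩
        linear_combination -h2
      obtain ⟨A₂, rfl⟩ := hA2
      have h3 : B₂ ^ 2 = π ^ 2 * A₂ ^ 3 + C m * (π ^ 2 * d₁ ^ 6) := by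
        apply mul_left_cancel₀ hπ0
        linear_combination h2
      have hB3 : π ∣ B₂ := by
        refine hπ.dvd_of_dvd_pow (n := 2) ⟨π * A₂ ^ 3 + C m * (π * d₁ ^ 6), ?_⟩
        rw [h3]; ring
      obtain ⟨B₃, rfl⟩ := hB3
      have h4 : B₃ ^ 2 = A₂ ^ 3 + C m * d₁ ^ 6 := by
        apply mul_left_cancel₀ (pow_ne_zero 2 hπ0)
        linear_combination h3
      have hdeg : d₁.natDegree < k := by
        rw [← hk, natDegree_mul hπ0 hd₁]
        have : 0 < π.natDegree := Irreducible.natDegree_pos hπ.irreducible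
        omega
      obtain ⟨c, hc⟩ := ih d₁.natDegree hdeg A₂ B₃ d₁ rfl hd₁ h4
      exact ⟨c, by rw [hc]; ring⟩

/-- The curve has no nonconstant point over the rational functions. -/
theorem ratFunc_sol {m : ℂ} (hm : m ≠ 0) (p q : RatFunc ℂ) (h : q ^ 2 = p ^ 3 + RatFunc.C m) :
    ∃ c : ℂ, p = RatFunc.C c := by
  set d : ℂ[X] := p.denom * q.denom with hd
  have hd0 : d ≠ 0 := mul_ne_zero p.denom_ne_zero q.denom_ne_zero
  have hp0 : algebraMap ℂ[X] (RatFunc ℂ) p.denom ≠ 0 := RatFunc.algebraMap_ne_zero p.denom_ne_zero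
  have hq0 : algebraMap ℂ[X] (RatFunc ℂ) q.denom ≠ 0 := RatFunc.algebraMap_ne_zero q.denom_ne_zero
  have hD0 : algebraMap ℂ[X] (RatFunc ℂ) d ≠ 0 := RatFunc.algebraMap_ne_zero hd0
  have hp : algebraMap ℂ[X] (RatFunc ℂ) p.num = p * algebraMap ℂ[X] (RatFunc ℂ) p.denom := by
    rw [← div_eq_iff hp0, RatFunc.num_div_denom]
  have hq : algebraMap ℂ[X] (RatFunc ℂ) q.num = q * algebraMap ℂ[X] (RatFunc ℂ) q.denom := by
    rw [← div_eq_iff hq0, RatFunc.num_div_denom]
  have hA : algebraMap ℂ[X] (RatFunc ℂ) (p.num * p.denom * q.denom ^ 2) =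
      p * (algebraMap ℂ[X] (RatFunc ℂ) d) ^ 2 := by
    rw [hd]; simp only [map_mul, map_pow, hp]; ring
  have hB : algebraMap ℂ[X] (RatFunc ℂ) (q.num * p.denom ^ 3 * q.denom ^ 2) =
      q * (algebraMap ℂ[X] (RatFunc ℂ) d) ^ 3 := by
    rw [hd]; simp only [map_mul, map_pow, hq]; ring
  have heq : (q.num * p.denom ^ 3 * q.denom ^ 2) ^ 2 =
      (p.num * p.denom * q.denom ^ 2) ^ 3 + C m * d ^ 6 := by
    apply RatFunc.algebraMap_injective ℂ
    simp only [map_add, map_pow, map_mul] at hA hB ⊢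
    rw [hB, hA]
    rw [← RatFunc.algebraMap_C] at h
    linear_combination (algebraMap ℂ[X] (RatFunc ℂ) d) ^ 6 * h
  obtain ⟨c, hc⟩ := poly_sol hm _ _ _ d rfl hd0 heq
  refine ⟨c, ?_⟩
  rw [hc, map_mul, map_pow, RatFunc.algebraMap_C] at hA
  exact (mul_right_cancel₀ (pow_ne_zero 2 hD0) hA).symm

/-- the defining polynomial of the curve over the rational functions -/
noncomputable def curvePoly (m : ℂ) : (RatFunc ℂ)[X] :=
  X ^ 2 - C (RatFunc.X ^ 3 + RatFunc.C m)

theorem curve_not_sq {m : ℂ} (hm : m ≠ 0) (b : RatFunc ℂ) :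
    b ^ 2 ≠ RatFunc.X ^ 3 + RatFunc.C m := by
  intro h
  obtain ⟨c, hc⟩ := ratFunc_sol hm RatFunc.X b h
  rw [← RatFunc.algebraMap_X, ← RatFunc.algebraMap_C] at hc
  exact X_ne_C c (RatFunc.algebraMap_injective ℂ hc)

theorem curve_irreducible {m : ℂ} (hm : m ≠ 0) : Irreducible (curvePoly m) :=
  X_pow_sub_C_irreducible_of_prime Nat.prime_two (curve_not_sq hm)

/-- the function field of the curve -/
abbrev CurveField (m : ℂ) : Type := AdjoinRoot (curvePoly m)

theorem eval_curvePoly (m : ℂ) {R : Type*} [CommRing R] (g : RatFunc ℂ →+* R) (r : R) :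
    eval₂ g r (curvePoly m) = r ^ 2 - (g RatFunc.X ^ 3 + g (RatFunc.C m)) := by
  unfold curvePoly
  rw [eval₂_sub, eval₂_pow, eval₂_X, eval₂_C, map_add, map_pow]

theorem root_sq (m : ℂ) : (AdjoinRoot.root (curvePoly m)) ^ 2 =
    (AdjoinRoot.of (curvePoly m) RatFunc.X) ^ 3 + AdjoinRoot.of (curvePoly m) (RatFunc.C m) := by
  have h := AdjoinRoot.eval₂_root (curvePoly m)
  rw [eval_curvePoly] at h
  exact sub_eq_zero.mp h

theorem curve_not_rational {m : ℂ} (hm : m ≠ 0) [Fact (Irreducible (curvePoly m))] :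
    IsEmpty (CurveField m ≃ₐ[ℂ] RatFunc ℂ) := by
  refine ⟨fun e => ?_⟩
  have h := congrArg e (root_sq m)
  rw [map_pow, map_add, map_pow] at h
  have hC : ∀ c : ℂ, e (AdjoinRoot.of (curvePoly m) (RatFunc.C c)) = RatFunc.C c := by
    intro c
    have h1 := e.commutes c
    have h2 : algebraMap ℂ (CurveField m) c = AdjoinRoot.of (curvePoly m) (RatFunc.C c) := by
      rw [AdjoinRoot.algebraMap_eq' ]
      rfl
    have h3 : algebraMap ℂ (RatFunc ℂ) c = RatFunc.C c := rfl
    rw [← h2, h1, h3]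
  rw [hC] at h
  obtain ⟨c, hc⟩ := ratFunc_sol hm _ _ h
  rw [← hC] at hc
  have h4 := (AdjoinRoot.of (curvePoly m)).injective (e.injective hc)
  rw [← RatFunc.algebraMap_X, ← RatFunc.algebraMap_C] at h4
  exact X_ne_C c (RatFunc.algebraMap_injective ℂ h4)

theorem curve_trdeg {m : ℂ} (hm : m ≠ 0) [Fact (Irreducible (curvePoly m))] :
    Algebra.trdeg ℂ (CurveField m) = 1 := by
  have h1 : Algebra.trdeg ℂ (RatFunc ℂ) = 1 := by
    have := trdeg_add_eq ℂ ℂ[X] (A := RatFunc ℂ)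
    rw [Polynomial.trdeg_of_isDomain] at this
    rw [← this]
    have : Algebra.IsAlgebraic ℂ[X] (RatFunc ℂ) :=
      IsLocalization.isAlgebraic _ (nonZeroDivisors ℂ[X])
    rw [trdeg_eq_zero, add_zero]
  have h2 := trdeg_add_eq ℂ (RatFunc ℂ) (A := CurveField m)
  rw [h1] at h2
  rw [← h2]
  have : Module.Finite (RatFunc ℂ) (CurveField m) :=
    PowerBasis.finite (AdjoinRoot.powerBasis (curve_irreducible hm).ne_zero)
  have : Algebra.IsAlgebraic (RatFunc ℂ) (CurveField m) := Algebra.IsAlgebraic.of_finite _ _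
  rw [trdeg_eq_zero, add_zero]

end Pool.Agent.H339R3
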