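import Mathlib

/-!
Maps from the field of rational functions to commutative subrings of a noncommutative algebra.
-/

set_option autoImplicit false

namespace Pool.Agent.H339R3

open Polynomial

section comm

variable {Z : Type*} [CommRing Z] [Algebra ℂ Z] {a : Z}

theorem isUnit_aeval (h : ∀ c : ℂ, IsUnit (a - algebraMap ℂ Z c)) {p : ℂ[X]} (hp : p ≠ 0) :
    IsUnit (aeval a p) := by
  have h1 := (IsAlgClosed.splits p).eq_prod_roots
  rw [h1, map_mul, aeval_C]
  refine IsUnit.mul ?_ ?_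
  · exact ((leadingCoeff_ne_zero.mpr hp).isUnit).map (algebraMap ℂ Z)
  · rw [map_multiset_prod]
    refine Multiset.prod_induction IsUnit _ (fun _ _ => IsUnit.mul) isUnit_one ?_
    intro x hx
    rw [Multiset.mem_map] at hx
    obtain ⟨y, hy, rfl⟩ := hx
    rw [Multiset.mem_map] at hy
    obtain ⟨c, -, rfl⟩ := hy
    simpa using h c

/-- The map from the rational functions sending the variable to `a`. -/
noncomputable def liftRat (h : ∀ c : ℂ, IsUnit (a - algebraMap ℂ Z c)) : RatFunc ℂ →+* Z :=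
  IsLocalization.lift (M := nonZeroDivisors ℂ[X]) (S := RatFunc ℂ) (g := (aeval a).toRingHom)
    (fun y => isUnit_aeval h (nonZeroDivisors.ne_zero y.2))

theorem liftRat_poly (h : ∀ c : ℂ, IsUnit (a - algebraMap ℂ Z c)) (p : ℂ[X]) :
    liftRat h (algebraMap ℂ[X] (RatFunc ℂ) p) = aeval a p :=
  IsLocalization.lift_eq _ p

theorem liftRat_X (h : ∀ c : ℂ, IsUnit (a - algebraMap ℂ Z c)) : liftRat h RatFunc.X = a := by
  rw [← RatFunc.algebraMap_X, liftRat_poly, aeval_X]

theorem liftRat_C (h : ∀ c : ℂ, IsUnit (a - algebraMap ℂ Z c)) (c : ℂ) :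
    liftRat h (RatFunc.C c) = algebraMap ℂ Z c := by
  rw [← RatFunc.algebraMap_C, liftRat_poly, aeval_C]

end comm

section noncomm

variable {A : Type*} [Ring A] [Algebra ℂ A]

/-- The double centralizer of two elements. -/
def bicomm (s : Set A) : Subalgebra ℂ A :=
  Subalgebra.centralizer ℂ (Subalgebra.centralizer ℂ s : Set A)

theorem mem_bicomm {s : Set A} {x : A} :
    x ∈ bicomm s ↔ ∀ g : A, (∀ w ∈ s, w * g = g * w) → g * x = x * g := by
  unfold bicomm
  rw [Subalgebra.mem_centralizer_iff]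
  simp only [SetLike.mem_coe, Subalgebra.mem_centralizer_iff]

theorem subset_bicomm {s : Set A} {x : A} (hx : x ∈ s) : x ∈ bicomm s :=
  mem_bicomm.mpr fun _ hg => (hg x hx).symm

/-- The double centralizer of a commutative set is commutative. -/
@[reducible] noncomputable def bicommRing (s : Set A) (hs : ∀ x ∈ s, ∀ y ∈ s, x * y = y * x) :
    CommRing (bicomm s) :=
  { (inferInstance : Ring (bicomm s)) with
    mul_comm := by
      rintro ⟨x, hx⟩ ⟨y, hy⟩
      have hx' := mem_bicomm.mp hx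
      have hy' := mem_bicomm.mp hy
      apply Subtype.ext
      show x * y = y * x
      refine (hy' x ?_)
      intro w hw
      exact hx' w (fun v hv => hs v hv w hw) }

theorem bicomm_isUnit {s : Set A} {x : A} (hx : x ∈ bicomm s) (hu : IsUnit x) :
    IsUnit (⟨x, hx⟩ : bicomm s) := by
  obtain ⟨u, rfl⟩ := hu
  have hinv : (↑u⁻¹ : A) ∈ bicomm s := by
    rw [mem_bicomm] at hx ⊢
    intro g hg
    have h1 := hx g hg
    calc g * ↑u⁻¹ = ↑u⁻¹ * (↑u * g) * ↑u⁻¹ := by rw [← mul_assoc, Units.inv_mul, one_mul]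
      _ = ↑u⁻¹ * (g * ↑u) * ↑u⁻¹ := by rw [h1]
      _ = ↑u⁻¹ * g := by rw [mul_assoc, mul_assoc, Units.mul_inv, mul_one]
  refine ⟨⟨⟨u, hx⟩, ⟨↑u⁻¹, hinv⟩, ?_, ?_⟩, rfl⟩
  · exact Subtype.ext (Units.mul_inv u)
  · exact Subtype.ext (Units.inv_mul u)

/-- Map from the rational functions to a noncommutative algebra. -/
theorem exists_liftRat {a : A} (h : ∀ c : ℂ, IsUnit (a - algebraMap ℂ A c)) :
    ∃ f : RatFunc ℂ →+* A, f RatFunc.X = a ∧ ∀ c, f (RatFunc.C c) = algebraMap ℂ A c := by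
  letI : CommRing (bicomm ({a} : Set A)) := bicommRing {a} (by
    rintro x hx y hy
    rw [Set.mem_singleton_iff] at hx hy
    rw [hx, hy])
  have ha : a ∈ bicomm ({a} : Set A) := subset_bicomm rfl
  have h' : ∀ c : ℂ, IsUnit ((⟨a, ha⟩ : bicomm ({a} : Set A)) - algebraMap ℂ _ c) := fun c =>
    bicomm_isUnit _ (h c)
  refine ⟨(bicomm ({a} : Set A)).val.toRingHom.comp (liftRat h'), ?_, fun c => ?_⟩
  · show ((liftRat h' RatFunc.X : bicomm ({a} : Set A)) : A) = a
    rw [liftRat_X]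
  · show ((liftRat h' (RatFunc.C c) : bicomm ({a} : Set A)) : A) = _
    rw [liftRat_C]
    rfl

end noncomm

end Pool.Agent.H339R3
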