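import Pool.Agent.H339R3.Curve
import Pool.Agent.H339R3.Lift

/-!
Embedding the function field of an elliptic curve in a noncommutative algebra.
-/

set_option autoImplicit false

namespace Pool.Agent.H339R3

open Polynomial

theorem exists_embed {A : Type*} [Ring A] [Algebra ℂ A] [Nontrivial A] {P Q : A}
    (hPQ : P * Q = Q * P) {m : ℂ} (hm : m ≠ 0)
    (hQ : Q * Q = P * P * P + algebraMap ℂ A m)
    (hP : ∀ c : ℂ, IsUnit (P - algebraMap ℂ A c)) :
    ∃ (L : Type) (_ : Field L) (_ : Algebra ℂ L) (f : L →ₐ[ℂ] A),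
      Function.Injective f ∧ Algebra.trdeg ℂ L = 1 ∧ IsEmpty (L ≃ₐ[ℂ] RatFunc ℂ) := by
  haveI hirr : Fact (Irreducible (curvePoly m)) := ⟨curve_irreducible hm⟩
  letI : CommRing (bicomm ({P, Q} : Set A)) := bicommRing {P, Q} (by
    rintro x hx y hy
    simp only [Set.mem_insert_iff, Set.mem_singleton_iff] at hx hy
    rcases hx with rfl | rfl <;> rcases hy with rfl | rfl
    · rfl
    · exact hPQ
    · exact hPQ.symm
    · rfl)
  have hPm : P ∈ bicomm ({P, Q} : Set A) := subset_bicomm (by simp)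
  have hQm : Q ∈ bicomm ({P, Q} : Set A) := subset_bicomm (by simp)
  set p : bicomm ({P, Q} : Set A) := ⟨P, hPm⟩ with hp
  set q : bicomm ({P, Q} : Set A) := ⟨Q, hQm⟩ with hq
  have hu : ∀ c : ℂ, IsUnit (p - algebraMap ℂ _ c) := fun c => bicomm_isUnit _ (hP c)
  have hqq : q ^ 2 = p ^ 3 + algebraMap ℂ _ m := by
    apply Subtype.ext
    show Q ^ 2 = P ^ 3 + algebraMap ℂ A m
    rw [pow_two, hQ, pow_succ, pow_two]
  have hev : eval₂ (liftRat hu) q (curvePoly m) = 0 := by
    rw [eval_curvePoly, liftRat_X, liftRat_C, hqq, sub_self]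
  let g : CurveField m →+* bicomm ({P, Q} : Set A) := AdjoinRoot.lift (liftRat hu) q hev
  have hg : ∀ c : ℂ, g (algebraMap ℂ (CurveField m) c) = algebraMap ℂ _ c := by
    intro c
    have h2 : algebraMap ℂ (CurveField m) c = AdjoinRoot.of (curvePoly m) (RatFunc.C c) := rfl
    rw [h2]
    show AdjoinRoot.lift (liftRat hu) q hev (AdjoinRoot.of (curvePoly m) (RatFunc.C c)) = _
    rw [AdjoinRoot.lift_of, liftRat_C]
  let f : CurveField m →ₐ[ℂ] A :=
    { (bicomm ({P, Q} : Set A)).val.toRingHom.comp g with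
      commutes' := fun c => by
        show ((g (algebraMap ℂ (CurveField m) c) : bicomm ({P, Q} : Set A)) : A) = _
        rw [hg]
        rfl }
  exact ⟨CurveField m, inferInstance, inferInstance, f, f.toRingHom.injective,
    curve_trdeg hm, curve_not_rational hm⟩

end Pool.Agent.H339R3
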