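import Pool.Agent.H339R3.Rep

/-!
Faithfulness of the representation and a criterion for units of the cyclic algebra.
-/

set_option autoImplicit false

namespace Pool.Agent.H339R3

variable {n : ℕ} [NeZero n] {ζ : ℂ} {K' : Type} [Field K']

theorem rep_injective (hζ : IsPrimitiveRoot ζ n) (θ : KK →+* K') {s b : K'} (hs : s ≠ 0)
    (hb : b ≠ 0) {χ : AddChar (ZMod n) K'} {ρ : AA n ζ →+* Module.End K' (ZMod n → K')}
    (hχ : ∀ k, χ k = θ (algebraMap ℂ KK (ζ ^ k.val)))
    (hρ : ∀ r, ρ (algebraMap KK (AA n ζ) r) = algebraMap K' _ (θ r))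
    (hT : ρ (tt n ζ) = opT s) (hY : ρ (yy n ζ) = opY b χ) (x : AA n ζ) (hx : ρ x = 0) :
    x = 0 := by
  obtain ⟨c, rfl⟩ := exists_coeff (hζ.ne_zero (NeZero.ne n)) x
  have hχinj : Function.Injective fun m : Fin n => b * χ ((m : ℕ) : ZMod n) := by
    intro m m' h
    have h1 := mul_left_cancel₀ hb h
    rw [hχ, hχ] at h1
    have h2 := (algebraMap ℂ KK).injective (θ.injective h1)
    rw [ZMod.val_natCast_of_lt m.2, ZMod.val_natCast_of_lt m'.2] at h2
    exact Fin.ext (hζ.pow_inj m.2 m'.2 h2)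
  -- the matrix entries
  have key : ∀ (i₀ : Fin n) (m : ZMod n), ∑ j : Fin n, θ (c (i₀, j)) * (b * χ m) ^ (j : ℕ) = 0 := by
    intro i₀ m
    have h1 : (ρ (∑ p, c p • (tt n ζ ^ (p.1 : ℕ) * yy n ζ ^ (p.2 : ℕ))))
        (Pi.single m 1) (m - (i₀ : ℕ)) = 0 := by rw [hx]; rfl
    rw [map_sum, LinearMap.sum_apply, Finset.sum_apply] at h1
    have h2 : ∀ p : Fin n × Fin n, (ρ (c p • (tt n ζ ^ (p.1 : ℕ) * yy n ζ ^ (p.2 : ℕ))))
        (Pi.single m (1 : K')) (m - ((i₀ : ℕ) : ZMod n)) =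
        if p.1 = i₀ then s ^ (i₀ : ℕ) * (θ (c p) * (b * χ m) ^ (p.2 : ℕ)) else 0 := by
      intro p
      rw [Algebra.smul_def, map_mul, map_mul, map_pow, map_pow, hρ, hT, hY, Module.End.mul_apply,
        Module.algebraMap_end_apply, Module.End.mul_apply, Pi.smul_apply, opT_pow, opY_pow,
        smul_eq_mul]
      split_ifs with hp
      · rw [hp, sub_add_cancel, Pi.single_eq_same]
        ring
      · have : m - ((i₀ : ℕ) : ZMod n) + ((p.1 : ℕ) : ZMod n) ≠ m := by
          intro hcon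
          apply hp
          have h3 : ((p.1 : ℕ) : ZMod n) = ((i₀ : ℕ) : ZMod n) := by linear_combination hcon
          have h4 := congrArg ZMod.val h3
          rw [ZMod.val_natCast_of_lt p.1.2, ZMod.val_natCast_of_lt i₀.2] at h4
          exact Fin.ext h4
        rw [Pi.single_eq_of_ne this]
        ring
    rw [Finset.sum_congr rfl (fun p _ => h2 p), Fintype.sum_prod_type,
      Finset.sum_eq_single i₀] at h1
    · simp only [if_true] at h1
      rw [← Finset.mul_sum] at h1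
      exact (mul_eq_zero.mp h1).resolve_left (pow_ne_zero _ hs)
    · intro i _ hi
      refine Finset.sum_eq_zero fun j _ => ?_
      exact if_neg hi
    · intro h; exact absurd (Finset.mem_univ _) h
  have hc : ∀ p, c p = 0 := by
    rintro ⟨i, j⟩
    have h1 := Matrix.eq_zero_of_forall_index_sum_mul_pow_eq_zero (v := fun j => θ (c (i, j)))
      hχinj (fun m => key i _)
    have h2 := congrFun h1 j
    simp only [Pi.zero_apply] at h2
    exact (map_eq_zero θ).mp h2
  simp [hc]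

section abstract

variable {A : Type} [Ring A] {Γ : Type} [LinearOrderedCommGroupWithZero Γ] (v : Valuation K' Γ)

/-- elements acting by contractions -/
def Contr (ρ : A →+* Module.End K' (ZMod n → K')) (x : A) : Prop :=
  ∀ (r : Γ) (ψ : ZMod n → K'), (∀ k, v (ψ k) ≤ r) → ∀ k, v (ρ x ψ k) ≤ r

variable {v} {ρ : A →+* Module.End K' (ZMod n → K')}

omit [NeZero n] in
theorem Contr.add {x y : A} (hx : Contr v ρ x) (hy : Contr v ρ y) : Contr v ρ (x + y) := by
  intro r ψ h k
  rw [map_add, LinearMap.add_apply, Pi.add_apply]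
  exact (v.map_add _ _).trans (max_le (hx r ψ h k) (hy r ψ h k))

omit [NeZero n] in
theorem Contr.mul {x y : A} (hx : Contr v ρ x) (hy : Contr v ρ y) : Contr v ρ (x * y) := by
  intro r ψ h k
  rw [map_mul, Module.End.mul_apply]
  exact hx r _ (hy r ψ h) k

omit [NeZero n] in
theorem Contr.neg {x : A} (hx : Contr v ρ x) : Contr v ρ (-x) := by
  intro r ψ h k
  rw [map_neg, LinearMap.neg_apply, Pi.neg_apply, v.map_neg]
  exact hx r ψ h k

omit [NeZero n] in
theorem Contr.sub {x y : A} (hx : Contr v ρ x) (hy : Contr v ρ y) : Contr v ρ (x - y) := by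
  rw [sub_eq_add_neg]; exact hx.add hy.neg

theorem inj_of_contr {s : K'} (hs : 1 < v s) {t : A}
    (hT : ρ t = opT s) {z : A}
    (hz : Contr v ρ z) {ψ : ZMod n → K'} (hψ : ρ (t * t + z) ψ = 0) : ψ = 0 := by
  obtain ⟨k₀, -, hk₀⟩ := Finset.exists_max_image (Finset.univ : Finset (ZMod n))
    (fun k => v (ψ k)) ⟨0, Finset.mem_univ _⟩
  have hk₀' : ∀ k, v (ψ k) ≤ v (ψ k₀) := fun k => hk₀ k (Finset.mem_univ _)
  by_contra hne
  have hpos : 0 < v (ψ k₀) := by
    rw [zero_lt_iff]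
    intro h0
    apply hne
    funext k
    have h1 : v (ψ k) = 0 := le_zero_iff.mp (h0 ▸ hk₀' k)
    exact v.zero_iff.mp h1
  have h1 := congrFun hψ (k₀ - 2)
  rw [map_add, LinearMap.add_apply, Pi.add_apply, map_mul, hT, ← pow_two, opT_pow, Pi.zero_apply]
    at h1
  have h2 : k₀ - 2 + ((2 : ℕ) : ZMod n) = k₀ := by push_cast; ring
  rw [h2] at h1
  have h3 : v (s ^ 2 * ψ k₀) = v (ρ z ψ (k₀ - 2)) := by
    have : s ^ 2 * ψ k₀ = -(ρ z ψ (k₀ - 2)) := by linear_combination h1
    rw [this, v.map_neg]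
  have h4 := hz (v (ψ k₀)) ψ hk₀' (k₀ - 2)
  rw [← h3, map_mul, map_pow] at h4
  have h5 : v (ψ k₀) < v s ^ 2 * v (ψ k₀) := by
    have h6 : 1 < v s ^ 2 := one_lt_pow₀ hs (by norm_num)
    calc v (ψ k₀) = 1 * v (ψ k₀) := (one_mul _).symm
      _ < v s ^ 2 * v (ψ k₀) := mul_lt_mul_of_pos_right h6 hpos
  exact absurd h4 (not_le.mpr h5)

theorem left_regular_of_contr {s : K'} (hs : 1 < v s) {t : A}
    (hT : ρ t = opT s) (hinj : ∀ x, ρ x = 0 → x = 0) {z : A}
    (hz : Contr v ρ z) (w : A) (hw : (t * t + z) * w = 0) : w = 0 := by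
  apply hinj
  refine LinearMap.ext fun ψ => ?_
  have h1 : ρ (t * t + z) (ρ w ψ) = 0 := by
    rw [← Module.End.mul_apply, ← map_mul, hw, map_zero, LinearMap.zero_apply]
  exact inj_of_contr hs hT hz h1

end abstract

/-- Left-regular elements are units. -/
theorem isUnit_of_left_regular {k A : Type*} [Field k] [Ring A] [Algebra k A] [Module.Finite k A]
    {x : A} (h : ∀ w, x * w = 0 → w = 0) : IsUnit x := by
  have hinj : Function.Injective (LinearMap.mulLeft k x) := by
    rw [injective_iff_map_eq_zero]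
    intro w hw
    exact h w hw
  have hsurj := LinearMap.injective_iff_surjective.mp hinj
  obtain ⟨w, hw⟩ := hsurj 1
  have hw' : x * w = 1 := hw
  have h2 : w * x = 1 := by
    have h3 : x * (w * x - 1) = 0 := by rw [mul_sub, ← mul_assoc, hw', one_mul, mul_one, sub_self]
    exact sub_eq_zero.mp (h _ h3)
  exact ⟨⟨x, w, hw', h2⟩, rfl⟩

theorem isUnit_AA (hζ : ζ ≠ 0) {x : AA n ζ} (h : ∀ w, x * w = 0 → w = 0) : IsUnit x := by
  have := finite_AA (n := n) hζ
  exact isUnit_of_left_regular (k := KK) (A := AA n ζ) h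

end Pool.Agent.H339R3
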