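import Pool.Agent.H339R3.Main
import Pool.Agent.H339R3.Embed
import Pool.Agent.H339R3.Unit

/-!
The function field of an elliptic curve inside the cyclic algebra.
-/

set_option autoImplicit false

namespace Pool.Agent.H339R3

section RatAut

open Polynomial

theorem isUnit_scale {ζ : ℂ} (hζ : ζ ≠ 0) (c : ℂ) :
    IsUnit (RatFunc.C ζ * RatFunc.X - algebraMap ℂ (RatFunc ℂ) c) := by
  have h1 : RatFunc.C ζ * RatFunc.X - algebraMap ℂ (RatFunc ℂ) c =
      algebraMap ℂ[X] (RatFunc ℂ) (C ζ * X - C c) := by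
    rw [map_sub, map_mul, RatFunc.algebraMap_C, RatFunc.algebraMap_X, RatFunc.algebraMap_C]
    rfl
  rw [h1, isUnit_iff_ne_zero]
  apply RatFunc.algebraMap_ne_zero
  intro h
  have h2 := congrArg (fun p => p.coeff 1) h
  simp at h2
  exact hζ h2

/-- the substitution of `ζ X` for `X` -/
noncomputable def sc {ζ : ℂ} (hζ : ζ ≠ 0) : RatFunc ℂ →+* RatFunc ℂ := liftRat (isUnit_scale hζ)

theorem sc_X {ζ : ℂ} (hζ : ζ ≠ 0) : sc hζ RatFunc.X = RatFunc.C ζ * RatFunc.X := liftRat_X _

theorem sc_C {ζ : ℂ} (hζ : ζ ≠ 0) (c : ℂ) : sc hζ (RatFunc.C c) = RatFunc.C c := liftRat_C _ c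

theorem sc_sc {ζ : ℂ} (hζ : ζ ≠ 0) (hζ' : ζ⁻¹ ≠ 0) (b : RatFunc ℂ) : sc hζ (sc hζ' b) = b := by
  have h : (sc hζ).comp (sc hζ') = RingHom.id _ := by
    apply IsLocalization.ringHom_ext (nonZeroDivisors ℂ[X])
    apply Polynomial.ringHom_ext
    · intro c
      simp only [RingHom.comp_apply, RingHom.id_apply, RatFunc.algebraMap_C, sc_C]
    · simp only [RingHom.comp_apply, RingHom.id_apply, RatFunc.algebraMap_X, sc_X, map_mul, sc_C]
      rw [← mul_assoc, ← map_mul, inv_mul_cancel₀ hζ, map_one, one_mul]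
  exact congrFun (congrArg DFunLike.coe h) b

end RatAut

section intertwine

variable {A : Type*} [Ring A] [Algebra ℂ A]

theorem intertwine {ζ : ℂ} (hζ : ζ ≠ 0) {φ : RatFunc ℂ →+* A} {t y : A} (hX : φ RatFunc.X = y)
    (hC : ∀ c, φ (RatFunc.C c) = algebraMap ℂ A c)
    (hty : t * y = algebraMap ℂ A ζ * (y * t)) (b : RatFunc ℂ) :
    t * φ b = φ (sc hζ b) * t := by
  have hpoly : ∀ p : Polynomial ℂ, t * φ (algebraMap _ _ p) = φ (sc hζ (algebraMap _ _ p)) * t := by
    intro p
    induction p using Polynomial.induction_on' with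
    | add p q hp hq => rw [map_add, map_add, mul_add, hp, hq, map_add, map_add, add_mul]
    | monomial k a =>
      rw [← Polynomial.C_mul_X_pow_eq_monomial, map_mul, map_pow, RatFunc.algebraMap_C,
        RatFunc.algebraMap_X, map_mul, map_mul, sc_C, map_mul, map_pow, map_pow, sc_X, map_pow,
        map_mul, hC, hC, hX]
      induction k with
      | zero => rw [pow_zero, pow_zero, mul_one, Algebra.commutes]
      | succ k ih =>
        have h1 : t * (y * y ^ k) = (algebraMap ℂ A ζ * y) * (t * y ^ k) := by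
          rw [← mul_assoc, hty]; simp only [mul_assoc]
        have h2 : t * y ^ k = (algebraMap ℂ A ζ * y) ^ k * t := by
          clear ih h1
          induction k with
          | zero => simp
          | succ k ih =>
            rw [pow_succ', ← mul_assoc, hty, pow_succ', mul_assoc, mul_assoc, ih]
            simp only [mul_assoc]
        rw [pow_succ', pow_succ', ← mul_assoc t, ← Algebra.commutes a t, mul_assoc, h1, h2]
        simp only [mul_assoc]
  induction b using RatFunc.induction_on with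
  | f p q hq =>
    have hq0 : algebraMap _ (RatFunc ℂ) q ≠ 0 := RatFunc.algebraMap_ne_zero hq
    have h1 : φ (algebraMap _ _ q) * φ (algebraMap _ _ q)⁻¹ = 1 := by
      rw [← map_mul, mul_inv_cancel₀ hq0, map_one]
    have h2 : φ (sc hζ (algebraMap _ _ q)⁻¹) * φ (sc hζ (algebraMap _ _ q)) = 1 := by
      rw [← map_mul, ← map_mul, inv_mul_cancel₀ hq0, map_one, map_one]
    have h3 : t * φ (algebraMap _ _ q)⁻¹ = φ (sc hζ (algebraMap _ _ q)⁻¹) * t := by
      calc t * φ (algebraMap _ _ q)⁻¹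
          = (φ (sc hζ (algebraMap _ _ q)⁻¹) * φ (sc hζ (algebraMap _ _ q))) *
            (t * φ (algebraMap _ _ q)⁻¹) := by rw [h2, one_mul]
        _ = φ (sc hζ (algebraMap _ _ q)⁻¹) * ((φ (sc hζ (algebraMap _ _ q)) * t) *
            φ (algebraMap _ _ q)⁻¹) := by simp only [mul_assoc]
        _ = φ (sc hζ (algebraMap _ _ q)⁻¹) * (t * (φ (algebraMap _ _ q) *
            φ (algebraMap _ _ q)⁻¹)) := by rw [← hpoly]; simp only [mul_assoc]
        _ = _ := by rw [h1, mul_one]
    rw [div_eq_mul_inv, map_mul, ← mul_assoc, hpoly, mul_assoc, h3, map_mul, map_mul, mul_assoc]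

end intertwine

end Pool.Agent.H339R3
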