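import Pool.Agent.H339R3.Final

/-!
Conclusion: the function field of an elliptic curve embeds in the cyclic algebra.
-/

set_option autoImplicit false

namespace Pool.Agent.H339R3

section contr

variable {n : ℕ} [NeZero n] {K' : Type} [Field K'] {Γ : Type}
  [LinearOrderedCommGroupWithZero Γ] {v : Valuation K' Γ} {A : Type} [Ring A] [Algebra ℂ A]
  {ρ : A →+* Module.End K' (ZMod n → K')}

theorem contr_S {s : K'} (hs : 1 < v s) {t S : A} (hT : ρ t = opT s) (hS : t * S = 1) :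
    Contr v ρ S := by
  intro r ψ h k
  have hs0 : s ≠ 0 := by
    rintro rfl
    rw [map_zero] at hs
    exact not_lt_zero hs
  have h1 : ρ t (ρ S ψ) = ψ := by
    rw [← Module.End.mul_apply, ← map_mul, hS, map_one, Module.End.one_apply]
  have h2 := congrFun h1 (k - 1)
  rw [hT, opT_apply, sub_add_cancel] at h2
  have h3 : v s * v (ρ S ψ k) = v (ψ (k - 1)) := by rw [← map_mul, h2]
  calc v (ρ S ψ k) = 1 * v (ρ S ψ k) := (one_mul _).symm
    _ ≤ v s * v (ρ S ψ k) := mul_le_mul_left hs.le _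
    _ = v (ψ (k - 1)) := h3
    _ ≤ r := h _

theorem contr_Y {b : K'} {χ : AddChar (ZMod n) K'} (hb : ∀ k, v (b * χ k) = 1) {y : A}
    (hY : ρ y = opY b χ) : Contr v ρ y := by
  intro r ψ h k
  rw [hY, opY_apply, map_mul, hb, one_mul]
  exact h k

theorem contr_Y' {b : K'} {χ : AddChar (ZMod n) K'} (hb : ∀ k, v (b * χ k) = 1) {y y' : A}
    (hY : ρ y = opY b χ) (hy : y * y' = 1) : Contr v ρ y' := by
  intro r ψ h k
  have h1 : ρ y (ρ y' ψ) = ψ := by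
    rw [← Module.End.mul_apply, ← map_mul, hy, map_one, Module.End.one_apply]
  have h2 := congrFun h1 k
  rw [hY, opY_apply] at h2
  have h3 := congrArg v h2
  rw [map_mul, hb, one_mul] at h3
  rw [h3]
  exact h k

theorem contr_C {c : ℂ} {d : K'} (hc : ρ (algebraMap ℂ A c) = algebraMap K' _ d) (hd : v d ≤ 1) :
    Contr v ρ (algebraMap ℂ A c) := by
  intro r ψ h k
  rw [hc, Module.algebraMap_end_apply, Pi.smul_apply, smul_eq_mul, map_mul]
  calc v d * v (ψ k) ≤ 1 * v (ψ k) := mul_le_mul_left hd _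
    _ = v (ψ k) := one_mul _
    _ ≤ r := h k

end contr

/-- the main statement in an abstract form -/
theorem main_abstract {n : ℕ} [NeZero n] {ζ : ℂ} (hζ0 : ζ ≠ 0) (hζ1 : ζ ≠ 1)
    {A : Type} [Ring A] [Algebra ℂ A] [Nontrivial A] {t y : A}
    (hty : t * y = algebraMap ℂ A ζ * (y * t)) (ht : IsUnit t)
    (hyc : ∀ c : ℂ, IsUnit (y - algebraMap ℂ A c))
    (hreg : ∀ x : A, (∀ w, x * w = 0 → w = 0) → IsUnit x)
    {K' : Type} [Field K'] {Γ : Type} [LinearOrderedCommGroupWithZero Γ] (v : Valuation K' Γ)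
    (ρ : A →+* Module.End K' (ZMod n → K')) (hinj : ∀ x, ρ x = 0 → x = 0)
    {s b : K'} {χ : AddChar (ZMod n) K'} (hT : ρ t = opT s) (hY : ρ y = opY b χ)
    (hs : 1 < v s) (hb : ∀ k, v (b * χ k) = 1) (κ : ℂ → K')
    (hκ : ∀ c, ρ (algebraMap ℂ A c) = algebraMap K' _ (κ c)) (hκ1 : ∀ c, v (κ c) ≤ 1) :
    ∃ (L : Type) (_ : Field L) (_ : Algebra ℂ L) (f : L →ₐ[ℂ] A),
      Function.Injective f ∧ Algebra.trdeg ℂ L = 1 ∧ IsEmpty (L ≃ₐ[ℂ] RatFunc ℂ) := by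
  obtain ⟨φ, hφX, hφC⟩ := exists_liftRat hyc
  obtain ⟨tu, htu⟩ := ht
  set S : A := ↑tu⁻¹ with hS
  have hTS : t * S = 1 := by rw [← htu]; exact Units.mul_inv tu
  have hST : S * t = 1 := by rw [← htu]; exact Units.inv_mul tu
  have hinter := intertwine hζ0 hφX hφC hty
  have hCζ : (RatFunc.C ζ : RatFunc ℂ) ≠ 0 := (map_ne_zero _).mpr hζ0
  have hX0 : (RatFunc.X : RatFunc ℂ) ≠ 0 := RatFunc.X_ne_zero
  have hζ0' : ζ⁻¹ ≠ 0 := inv_ne_zero hζ0
  set P := opP φ t S (RatFunc.C ζ) RatFunc.X with hP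
  set Q := opQ φ t S (RatFunc.C ζ) RatFunc.X with hQ
  have hcomm : P * Q = Q * P :=
    op_comm hCζ hX0 (sc_C hζ0 ζ) (sc_X hζ0) (sc_sc hζ0 hζ0') hTS hST hinter
  have hcurve : Q * Q = P * P * P + φ (mu (RatFunc.C ζ) ^ 3) :=
    op_curve hCζ hX0 (sc_C hζ0 ζ) (sc_X hζ0) (sc_sc hζ0 hζ0') hTS hST hinter
  set m : ℂ := (2 - ζ - ζ⁻¹) ^ 3 with hm
  have hmu : mu (RatFunc.C ζ) = RatFunc.C (2 - ζ - ζ⁻¹) := by
    rw [mu, map_sub, map_sub, map_inv₀, map_ofNat]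
  have hm' : φ (mu (RatFunc.C ζ) ^ 3) = algebraMap ℂ A m := by
    rw [hmu, ← map_pow, hφC]
  have hm0 : m ≠ 0 := by
    apply pow_ne_zero
    intro h
    have h1 : (ζ - 1) ^ 2 = 0 := by
      field_simp at h
      linear_combination -h
    exact hζ1 (sub_eq_zero.mp (pow_eq_zero_iff (two_ne_zero)|>.mp h1))
  rw [hm'] at hcurve
  refine exists_embed hcomm hm0 hcurve (fun c => ?_)
  -- units
  have cC : ∀ c, Contr v ρ (φ (RatFunc.C c)) := fun c => by
    rw [hφC]; exact contr_C (hκ c) (hκ1 c)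
  have cX : Contr v ρ (φ RatFunc.X) := by rw [hφX]; exact contr_Y hb hY
  have cXi : Contr v ρ (φ RatFunc.X⁻¹) := by
    refine contr_Y' hb hY ?_
    rw [← hφX, ← map_mul, mul_inv_cancel₀ hX0, map_one]
  have cz : ∀ k : ℤ, Contr v ρ (φ (RatFunc.C ζ ^ k)) := fun k => by
    rw [← map_zpow₀]; exact cC _
  have cV : ∀ k : ℤ, Contr v ρ (φ (V (RatFunc.C ζ) RatFunc.X k)) := fun k => by
    have h1 : (RatFunc.X : RatFunc ℂ) ^ (-2 : ℤ) = RatFunc.X⁻¹ * RatFunc.X⁻¹ := by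
      rw [zpow_neg, ← mul_inv]
      norm_num [pow_two]
    rw [V, h1, map_add, map_mul, map_mul, map_mul]
    exact ((cz _).mul cX).add ((cz _).mul (cXi.mul cXi))
  have cmu : Contr v ρ (φ (mu (RatFunc.C ζ))) := by rw [hmu]; exact cC _
  have cE : Contr v ρ (φ (E (RatFunc.C ζ) RatFunc.X 0)) := by
    rw [E]
    simp only [map_add, map_sub, map_mul]
    exact (((cV _).add (cV _)).sub (cmu.mul ((cz _).mul cX))).sub (cmu.mul ((cz _).mul cX))
  have cP : Contr v ρ (φ (P2 (RatFunc.C ζ) RatFunc.X 0)) := by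
    rw [P2, map_mul]
    exact (cV _).mul (cV _)
  have cS : Contr v ρ S := contr_S hs hT hTS
  have cAll : Contr v ρ (φ (E (RatFunc.C ζ) RatFunc.X 0) +
      φ (P2 (RatFunc.C ζ) RatFunc.X 0) * (S * S) - algebraMap ℂ A c) :=
    (cE.add (cP.mul (cS.mul cS))).sub (contr_C (hκ c) (hκ1 c))
  apply hreg
  intro w hw
  refine left_regular_of_contr hs hT hinj cAll w ?_
  rw [← hw, hP, opP]
  congr 1
  abel

end Pool.Agent.H339R3
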