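import Mathlib

/-!
An identity in the quantum torus: two commuting q-difference operators satisfying the equation
of an elliptic curve.
-/

set_option autoImplicit false

namespace Pool.Agent.H339R3

variable {F : Type*} [Field F]

/-- `V k` -/
def V (z y : F) (k : ℤ) : F := z ^ k * y + z ^ (-(2 * k)) * y ^ (-2 : ℤ)

/-- the constant `2 - z - 1 / z` -/
def mu (z : F) : F := 2 - z - z⁻¹

/-- coefficient of degree zero of the operator of order four -/
def E (z y : F) (k : ℤ) : F :=
  V z y (k + 1) + V z y k - mu z * (z ^ k * y) - mu z * (z ^ (k + 1) * y)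

/-- coefficient -/
def G (z y : F) (k : ℤ) : F :=
  V z y (k + 1) + V z y k + V z y (k - 1) - mu z * (z ^ (k + 1) * y) - mu z * (z ^ k * y)
    - mu z * (z ^ (k - 1) * y)

/-- coefficient -/
def P2 (z y : F) (k : ℤ) : F := V z y k * V z y (k - 1)

/-- coefficient -/
def H (z y : F) (k : ℤ) : F := V z y k * G z y k

/-- coefficient -/
def R (z y : F) (k : ℤ) : F := V z y k * V z y (k - 1) * V z y (k - 2)

section coeffs

variable {z y : F} (hz : z ≠ 0) (hy : y ≠ 0)

include hz hy

theorem sq4 : G z y 4 + G z y 1 = E z y 4 + (E z y 2 + E z y 0) := by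
  simp only [G, E, V, mu]
  norm_num
  field_simp
  ring

theorem sq2 : H z y 3 + G z y 1 * G z y 2 + H z y 0 =
    P2 z y 4 + (E z y 2 + E z y 0) * E z y 2 + (P2 z y 2 + E z y 0 * E z y 0 + P2 z y 0) := by
  simp only [G, E, V, mu, H, P2]
  norm_num
  field_simp
  ring

theorem sq0 : R z y 3 + G z y 1 * H z y 1 + H z y 0 * G z y 0 + R z y 0 =
    (E z y 2 + E z y 0) * P2 z y 2 + (P2 z y 2 + E z y 0 * E z y 0 + P2 z y 0) * E z y 0
      + P2 z y 0 * (E z y 0 + E z y (-2)) + mu z ^ 3 := by
  simp only [G, E, V, mu, H, P2, R]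
  norm_num
  field_simp
  ring

theorem sqm2 : G z y 1 * R z y 1 + H z y 0 * H z y (-1) + R z y 0 * G z y (-2) =
    (P2 z y 2 + E z y 0 * E z y 0 + P2 z y 0) * P2 z y 0
      + P2 z y 0 * (E z y 0 + E z y (-2)) * E z y (-2) + P2 z y 0 * P2 z y (-2) := by
  simp only [G, E, V, mu, H, P2, R]
  norm_num
  field_simp
  ring

theorem sqm4 : H z y 0 * R z y (-1) + R z y 0 * H z y (-3) =
    P2 z y 0 * (E z y 0 + E z y (-2)) * P2 z y (-2) + P2 z y 0 * P2 z y (-2) * E z y (-4) := by
  simp only [G, E, V, mu, H, P2, R]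
  norm_num
  field_simp
  ring

omit hz hy in
theorem sqm6 : R z y 0 * R z y (-3) = P2 z y 0 * P2 z y (-2) * P2 z y (-4) := by
  simp only [P2, R]
  norm_num
  ring

theorem com3 : G z y 3 + E z y 0 = E z y 3 + G z y 1 := by
  simp only [G, E, V, mu]
  norm_num
  field_simp
  ring

theorem com1 : H z y 2 + E z y 0 * G z y 1 + P2 z y 0 =
    P2 z y 3 + G z y 1 * E z y 1 + H z y 0 := by
  simp only [G, E, V, mu, H, P2]
  norm_num
  field_simp
  ring

theorem comm1 : R z y 2 + E z y 0 * H z y 0 + P2 z y 0 * G z y (-1) =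
    G z y 1 * P2 z y 1 + H z y 0 * E z y (-1) + R z y 0 := by
  simp only [G, E, V, mu, H, P2, R]
  norm_num
  field_simp
  ring

theorem comm3 : E z y 0 * R z y 0 + P2 z y 0 * H z y (-2) =
    H z y 0 * P2 z y (-1) + R z y 0 * E z y (-3) := by
  simp only [G, E, V, mu, H, P2, R]
  norm_num
  field_simp
  ring

omit hz hy in
theorem comm5 : P2 z y 0 * R z y (-2) = R z y 0 * P2 z y (-3) := by
  simp only [P2, R]
  norm_num
  ring

end coeffs

section action

variable {z y : F} {s : F →+* F} (hz : z ≠ 0)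

include hz

theorem act_V (hsz : s z = z) (hsy : s y = z * y) (k : ℤ) : s (V z y k) = V z y (k + 1) := by
  have h1 : z ^ (-(2 * (k + 1))) = z ^ (-(2 * k)) * z ^ (-2 : ℤ) := by
    rw [← zpow_add₀ hz]; congr 1; ring
  simp only [V, map_add, map_mul, map_zpow₀, hsz, hsy, mul_zpow, zpow_add_one₀ hz, h1]
  ring

theorem act_E (hsz : s z = z) (hsy : s y = z * y) (k : ℤ) : s (E z y k) = E z y (k + 1) := by
  have hm : s (mu z) = mu z := by simp only [mu, map_sub, map_inv₀, hsz, map_ofNat]
  simp only [E, map_add, map_sub, map_mul, act_V hz hsz hsy, hm, map_zpow₀, hsz, hsy]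
  simp only [zpow_add_one₀ hz]
  ring

theorem act_G (hsz : s z = z) (hsy : s y = z * y) (k : ℤ) : s (G z y k) = G z y (k + 1) := by
  have hm : s (mu z) = mu z := by simp only [mu, map_sub, map_inv₀, hsz, map_ofNat]
  have h1 : z ^ (k - 1) * z = z ^ (k + 1 - 1) := by
    rw [← zpow_add_one₀ hz]; congr 1; ring
  have h2 : V z y (k - 1 + 1) = V z y (k + 1 - 1) := by congr 1; ring
  simp only [G, map_add, map_sub, map_mul, act_V hz hsz hsy, hm, map_zpow₀, hsz, hsy]
  rw [h2, ← h1]
  simp only [zpow_add_one₀ hz]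
  ring

theorem act_P2 (hsz : s z = z) (hsy : s y = z * y) (k : ℤ) : s (P2 z y k) = P2 z y (k + 1) := by
  have h2 : V z y (k - 1 + 1) = V z y (k + 1 - 1) := by congr 1; ring
  simp only [P2, map_mul, act_V hz hsz hsy, h2]

theorem act_H (hsz : s z = z) (hsy : s y = z * y) (k : ℤ) : s (H z y k) = H z y (k + 1) := by
  simp only [H, map_mul, act_V hz hsz hsy, act_G hz hsz hsy]

theorem act_R (hsz : s z = z) (hsy : s y = z * y) (k : ℤ) : s (R z y k) = R z y (k + 1) := by
  have h2 : V z y (k - 1 + 1) = V z y (k + 1 - 1) := by congr 1; ring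
  have h3 : V z y (k - 2 + 1) = V z y (k + 1 - 2) := by congr 1; ring
  simp only [R, map_mul, act_V hz hsz hsy, h2, h3]

variable {s' : F →+* F} (hss : ∀ b, s (s' b) = b)

include hss

theorem act'_V (hsz : s z = z) (hsy : s y = z * y) (k : ℤ) : s' (V z y k) = V z y (k - 1) := by
  apply s.injective
  rw [hss, act_V hz hsz hsy, sub_add_cancel]

theorem act'_E (hsz : s z = z) (hsy : s y = z * y) (k : ℤ) : s' (E z y k) = E z y (k - 1) := by
  apply s.injective
  rw [hss, act_E hz hsz hsy, sub_add_cancel]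

theorem act'_G (hsz : s z = z) (hsy : s y = z * y) (k : ℤ) : s' (G z y k) = G z y (k - 1) := by
  apply s.injective
  rw [hss, act_G hz hsz hsy, sub_add_cancel]

theorem act'_P2 (hsz : s z = z) (hsy : s y = z * y) (k : ℤ) :
    s' (P2 z y k) = P2 z y (k - 1) := by
  apply s.injective
  rw [hss, act_P2 hz hsz hsy, sub_add_cancel]

theorem act'_H (hsz : s z = z) (hsy : s y = z * y) (k : ℤ) : s' (H z y k) = H z y (k - 1) := by
  apply s.injective
  rw [hss, act_H hz hsz hsy, sub_add_cancel]

theorem act'_R (hsz : s z = z) (hsy : s y = z * y) (k : ℤ) : s' (R z y k) = R z y (k - 1) := by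
  apply s.injective
  rw [hss, act_R hz hsz hsy, sub_add_cancel]

end action

section main

variable {A : Type*} [Ring A] (φ : F →+* A) (T S : A)

/-- the operator of order four -/
def opP (z y : F) : A := T * T + φ (E z y 0) + φ (P2 z y 0) * (S * S)

/-- the operator of order six -/
def opQ (z y : F) : A :=
  T * (T * T) + φ (G z y 1) * T + φ (H z y 0) * S + φ (R z y 0) * (S * (S * S))

variable {φ T S} {z y : F} {s s' : F →+* F}
  (hz : z ≠ 0) (hy : y ≠ 0) (hsz : s z = z) (hsy : s y = z * y) (hss : ∀ b, s (s' b) = b)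
  (hTS : T * S = 1) (hST : S * T = 1) (hT : ∀ b, T * φ b = φ (s b) * T)

include hss hTS hST hT

theorem relS (b : F) : S * φ b = φ (s' b) * S := by
  have h := hT (s' b)
  rw [hss] at h
  calc S * φ b = S * (φ b * (T * S)) := by rw [hTS, mul_one]
    _ = S * ((φ b * T) * S) := by rw [mul_assoc]
    _ = S * ((T * φ (s' b)) * S) := by rw [h]
    _ = (S * T) * (φ (s' b) * S) := by simp only [mul_assoc]
    _ = φ (s' b) * S := by rw [hST, one_mul]

end main

end Pool.Agent.H339R3
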