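import Pool.Agent.H339R3.Ident

set_option autoImplicit false
set_option linter.unusedSimpArgs false

namespace Pool.Agent.H339R3

attribute [local irreducible] V E G P2 H R mu

variable {F : Type*} [Field F] {A : Type*} [Ring A] {φ : F →+* A} {T S : A}
  {z y : F} {s s' : F →+* F}
  (hz : z ≠ 0) (hy : y ≠ 0) (hsz : s z = z) (hsy : s y = z * y) (hss : ∀ b, s (s' b) = b)
  (hTS : T * S = 1) (hST : S * T = 1) (hT : ∀ b, T * φ b = φ (s b) * T)

include hz hsz hsy hss hTS hST hT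

theorem opQ_mul : opQ φ T S z y * opQ φ T S z y =
    T * (T * (T * (T * (T * T)))) + φ (G z y 4 + G z y 1) * (T * (T * (T * T)))
    + φ (H z y 3 + G z y 1 * G z y 2 + H z y 0) * (T * T)
    + φ (R z y 3 + G z y 1 * H z y 1 + H z y 0 * G z y 0 + R z y 0)
    + φ (G z y 1 * R z y 1 + H z y 0 * H z y (-1) + R z y 0 * G z y (-2)) * (S * S)
    + φ (H z y 0 * R z y (-1) + R z y 0 * H z y (-3)) * (S * (S * (S * S)))
    + φ (R z y 0 * R z y (-3)) * (S * (S * (S * (S * (S * S))))) := by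
  have hS := relS (φ := φ) hss hTS hST hT
  have rT : ∀ b x, T * (φ b * x) = φ (s b) * (T * x) := fun b x => by
    rw [← mul_assoc, hT, mul_assoc]
  have rS : ∀ b x, S * (φ b * x) = φ (s' b) * (S * x) := fun b x => by
    rw [← mul_assoc, hS, mul_assoc]
  have rTS : ∀ x, T * (S * x) = x := fun x => by rw [← mul_assoc, hTS, one_mul]
  have rST : ∀ x, S * (T * x) = x := fun x => by rw [← mul_assoc, hST, one_mul]
  have rφ : ∀ a b x, φ a * (φ b * x) = φ (a * b) * x := fun a b x => by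
    rw [← mul_assoc, ← map_mul]
  have rφ' : ∀ a b, φ a * φ b = φ (a * b) := fun a b => by rw [← map_mul]
  simp only [opQ, mul_add, add_mul, mul_assoc, rT, rS, hT, hS, rTS, rST, hTS, hST, mul_one,
    rφ, rφ', act_V hz hsz hsy, act_E hz hsz hsy, act_G hz hsz hsy, act_P2 hz hsz hsy,
    act_H hz hsz hsy, act_R hz hsz hsy, act'_V hz hss hsz hsy, act'_E hz hss hsz hsy,
    act'_G hz hss hsz hsy, act'_P2 hz hss hsz hsy, act'_H hz hss hsz hsy, act'_R hz hss hsz hsy,
    zero_add, zero_sub, Int.reduceAdd, Int.reduceSub, Int.reduceNeg, map_add]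
  simp only [mul_comm, mul_left_comm]
  abel

theorem opP_sq : opP φ T S z y * opP φ T S z y =
    T * (T * (T * T)) + φ (E z y 2 + E z y 0) * (T * T)
    + φ (P2 z y 2 + E z y 0 * E z y 0 + P2 z y 0)
    + φ (P2 z y 0 * (E z y 0 + E z y (-2))) * (S * S)
    + φ (P2 z y 0 * P2 z y (-2)) * (S * (S * (S * S))) := by
  have hS := relS (φ := φ) hss hTS hST hT
  have rT : ∀ b x, T * (φ b * x) = φ (s b) * (T * x) := fun b x => by
    rw [← mul_assoc, hT, mul_assoc]
  have rS : ∀ b x, S * (φ b * x) = φ (s' b) * (S * x) := fun b x => by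
    rw [← mul_assoc, hS, mul_assoc]
  have rTS : ∀ x, T * (S * x) = x := fun x => by rw [← mul_assoc, hTS, one_mul]
  have rST : ∀ x, S * (T * x) = x := fun x => by rw [← mul_assoc, hST, one_mul]
  have rφ : ∀ a b x, φ a * (φ b * x) = φ (a * b) * x := fun a b x => by
    rw [← mul_assoc, ← map_mul]
  have rφ' : ∀ a b, φ a * φ b = φ (a * b) := fun a b => by rw [← map_mul]
  simp only [opP, mul_add, add_mul, mul_assoc, rT, rS, hT, hS, rTS, rST, hTS, hST, mul_one,
    rφ, rφ', act_V hz hsz hsy, act_E hz hsz hsy, act_G hz hsz hsy, act_P2 hz hsz hsy,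
    act_H hz hsz hsy, act_R hz hsz hsy, act'_V hz hss hsz hsy, act'_E hz hss hsz hsy,
    act'_G hz hss hsz hsy, act'_P2 hz hss hsz hsy, act'_H hz hss hsz hsy, act'_R hz hss hsz hsy,
    zero_add, zero_sub, Int.reduceAdd, Int.reduceSub, Int.reduceNeg, map_add]
  simp only [mul_comm, mul_left_comm]
  abel

theorem opP_cube : opP φ T S z y * opP φ T S z y * opP φ T S z y =
    T * (T * (T * (T * (T * T)))) + φ (E z y 4 + (E z y 2 + E z y 0)) * (T * (T * (T * T)))
    + φ (P2 z y 4 + (E z y 2 + E z y 0) * E z y 2 + (P2 z y 2 + E z y 0 * E z y 0 + P2 z y 0))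
        * (T * T)
    + φ ((E z y 2 + E z y 0) * P2 z y 2 + (P2 z y 2 + E z y 0 * E z y 0 + P2 z y 0) * E z y 0
      + P2 z y 0 * (E z y 0 + E z y (-2)))
    + φ ((P2 z y 2 + E z y 0 * E z y 0 + P2 z y 0) * P2 z y 0
      + P2 z y 0 * (E z y 0 + E z y (-2)) * E z y (-2) + P2 z y 0 * P2 z y (-2)) * (S * S)
    + φ (P2 z y 0 * (E z y 0 + E z y (-2)) * P2 z y (-2) + P2 z y 0 * P2 z y (-2) * E z y (-4))
        * (S * (S * (S * S)))
    + φ (P2 z y 0 * P2 z y (-2) * P2 z y (-4)) * (S * (S * (S * (S * (S * S))))) := by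
  have hS := relS (φ := φ) hss hTS hST hT
  have rT : ∀ b x, T * (φ b * x) = φ (s b) * (T * x) := fun b x => by
    rw [← mul_assoc, hT, mul_assoc]
  have rS : ∀ b x, S * (φ b * x) = φ (s' b) * (S * x) := fun b x => by
    rw [← mul_assoc, hS, mul_assoc]
  have rTS : ∀ x, T * (S * x) = x := fun x => by rw [← mul_assoc, hTS, one_mul]
  have rST : ∀ x, S * (T * x) = x := fun x => by rw [← mul_assoc, hST, one_mul]
  have rφ : ∀ a b x, φ a * (φ b * x) = φ (a * b) * x := fun a b x => by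
    rw [← mul_assoc, ← map_mul]
  have rφ' : ∀ a b, φ a * φ b = φ (a * b) := fun a b => by rw [← map_mul]
  rw [opP_sq hz hsz hsy hss hTS hST hT]
  generalize P2 z y 2 + E z y 0 * E z y 0 + P2 z y 0 = X
  generalize E z y 2 + E z y 0 = Y
  generalize E z y 0 + E z y (-2) = W
  simp only [opP, mul_add, add_mul, mul_assoc, rT, rS, hT, hS, rTS, rST, hTS, hST, mul_one,
    rφ, rφ', act_V hz hsz hsy, act_E hz hsz hsy, act_G hz hsz hsy, act_P2 hz hsz hsy,
    act_H hz hsz hsy, act_R hz hsz hsy, act'_V hz hss hsz hsy, act'_E hz hss hsz hsy,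
    act'_G hz hss hsz hsy, act'_P2 hz hss hsz hsy, act'_H hz hss hsz hsy, act'_R hz hss hsz hsy,
    zero_add, zero_sub, Int.reduceAdd, Int.reduceSub, Int.reduceNeg, map_add]
  abel

theorem opPQ : opP φ T S z y * opQ φ T S z y =
    T * (T * (T * (T * T))) + φ (G z y 3 + E z y 0) * (T * (T * T))
    + φ (H z y 2 + E z y 0 * G z y 1 + P2 z y 0) * T
    + φ (R z y 2 + E z y 0 * H z y 0 + P2 z y 0 * G z y (-1)) * S
    + φ (E z y 0 * R z y 0 + P2 z y 0 * H z y (-2)) * (S * (S * S))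
    + φ (P2 z y 0 * R z y (-2)) * (S * (S * (S * (S * S)))) := by
  have hS := relS (φ := φ) hss hTS hST hT
  have rT : ∀ b x, T * (φ b * x) = φ (s b) * (T * x) := fun b x => by
    rw [← mul_assoc, hT, mul_assoc]
  have rS : ∀ b x, S * (φ b * x) = φ (s' b) * (S * x) := fun b x => by
    rw [← mul_assoc, hS, mul_assoc]
  have rTS : ∀ x, T * (S * x) = x := fun x => by rw [← mul_assoc, hTS, one_mul]
  have rST : ∀ x, S * (T * x) = x := fun x => by rw [← mul_assoc, hST, one_mul]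
  have rφ : ∀ a b x, φ a * (φ b * x) = φ (a * b) * x := fun a b x => by
    rw [← mul_assoc, ← map_mul]
  have rφ' : ∀ a b, φ a * φ b = φ (a * b) := fun a b => by rw [← map_mul]
  simp only [opP, opQ, mul_add, add_mul, mul_assoc, rT, rS, hT, hS, rTS, rST, hTS, hST, mul_one,
    rφ, rφ', act_V hz hsz hsy, act_E hz hsz hsy, act_G hz hsz hsy, act_P2 hz hsz hsy,
    act_H hz hsz hsy, act_R hz hsz hsy, act'_V hz hss hsz hsy, act'_E hz hss hsz hsy,
    act'_G hz hss hsz hsy, act'_P2 hz hss hsz hsy, act'_H hz hss hsz hsy, act'_R hz hss hsz hsy,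
    zero_add, zero_sub, Int.reduceAdd, Int.reduceSub, Int.reduceNeg, map_add]
  simp only [mul_comm, mul_left_comm]
  abel

theorem opQP : opQ φ T S z y * opP φ T S z y =
    T * (T * (T * (T * T))) + φ (E z y 3 + G z y 1) * (T * (T * T))
    + φ (P2 z y 3 + G z y 1 * E z y 1 + H z y 0) * T
    + φ (G z y 1 * P2 z y 1 + H z y 0 * E z y (-1) + R z y 0) * S
    + φ (H z y 0 * P2 z y (-1) + R z y 0 * E z y (-3)) * (S * (S * S))
    + φ (R z y 0 * P2 z y (-3)) * (S * (S * (S * (S * S)))) := by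
  have hS := relS (φ := φ) hss hTS hST hT
  have rT : ∀ b x, T * (φ b * x) = φ (s b) * (T * x) := fun b x => by
    rw [← mul_assoc, hT, mul_assoc]
  have rS : ∀ b x, S * (φ b * x) = φ (s' b) * (S * x) := fun b x => by
    rw [← mul_assoc, hS, mul_assoc]
  have rTS : ∀ x, T * (S * x) = x := fun x => by rw [← mul_assoc, hTS, one_mul]
  have rST : ∀ x, S * (T * x) = x := fun x => by rw [← mul_assoc, hST, one_mul]
  have rφ : ∀ a b x, φ a * (φ b * x) = φ (a * b) * x := fun a b x => by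
    rw [← mul_assoc, ← map_mul]
  have rφ' : ∀ a b, φ a * φ b = φ (a * b) := fun a b => by rw [← map_mul]
  simp only [opP, opQ, mul_add, add_mul, mul_assoc, rT, rS, hT, hS, rTS, rST, hTS, hST, mul_one,
    rφ, rφ', act_V hz hsz hsy, act_E hz hsz hsy, act_G hz hsz hsy, act_P2 hz hsz hsy,
    act_H hz hsz hsy, act_R hz hsz hsy, act'_V hz hss hsz hsy, act'_E hz hss hsz hsy,
    act'_G hz hss hsz hsy, act'_P2 hz hss hsz hsy, act'_H hz hss hsz hsy, act'_R hz hss hsz hsy,
    zero_add, zero_sub, Int.reduceAdd, Int.reduceSub, Int.reduceNeg, map_add]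
  simp only [mul_comm, mul_left_comm]
  abel

include hy

/-- the two operators commute -/
theorem op_comm : opP φ T S z y * opQ φ T S z y = opQ φ T S z y * opP φ T S z y := by
  rw [opPQ hz hsz hsy hss hTS hST hT, opQP hz hsz hsy hss hTS hST hT, com3 hz hy, com1 hz hy,
    comm1 hz hy, comm3 hz hy, comm5]

/-- the equation of the elliptic curve -/
theorem op_curve : opQ φ T S z y * opQ φ T S z y =
    opP φ T S z y * opP φ T S z y * opP φ T S z y + φ (mu z ^ 3) := by
  rw [opQ_mul hz hsz hsy hss hTS hST hT, opP_cube hz hsz hsy hss hTS hST hT, sq4 hz hy,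
    sq2 hz hy, sq0 hz hy, sqm2 hz hy, sqm4 hz hy, sqm6, map_add φ _ (mu z ^ 3)]
  abel

end Pool.Agent.H339R3
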