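import Pool.Agent.H339R3.Alg

/-!
A representation of the cyclic algebra on functions on the cyclic group.
-/

set_option autoImplicit false

namespace Pool.Agent.H339R3

variable {n : ℕ} [NeZero n] {ζ : ℂ} {K' : Type} [Field K']

/-- the shift -/
def opT (s : K') : Module.End K' (ZMod n → K') where
  toFun ψ := fun k => s * ψ (k + 1)
  map_add' ψ φ := by ext k; simp [mul_add]
  map_smul' c ψ := by ext k; simp [mul_left_comm]

/-- the clock -/
def opY (b : K') (χ : AddChar (ZMod n) K') : Module.End K' (ZMod n → K') where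
  toFun ψ := fun k => b * χ k * ψ k
  map_add' ψ φ := by ext k; simp [mul_add]
  map_smul' c ψ := by ext k; simp [mul_left_comm]

omit [NeZero n] in
theorem opT_apply (s : K') (ψ : ZMod n → K') (k : ZMod n) : opT s ψ k = s * ψ (k + 1) := rfl

theorem opY_apply (b : K') (χ : AddChar (ZMod n) K') (ψ : ZMod n → K') (k : ZMod n) :
    opY b χ ψ k = b * χ k * ψ k := rfl

omit [NeZero n] in
theorem opT_pow (s : K') (i : ℕ) (ψ : ZMod n → K') (k : ZMod n) :
    (opT s ^ i) ψ k = s ^ i * ψ (k + i) := by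
  induction i generalizing k with
  | zero => simp
  | succ i ih =>
    rw [pow_succ', Module.End.mul_apply, opT_apply, ih, pow_succ', mul_assoc]
    congr 3
    push_cast
    ring

theorem opY_pow (b : K') (χ : AddChar (ZMod n) K') (i : ℕ) (ψ : ZMod n → K') (k : ZMod n) :
    (opY b χ ^ i) ψ k = (b * χ k) ^ i * ψ k := by
  induction i with
  | zero => simp
  | succ i ih =>
    rw [pow_succ', Module.End.mul_apply, opY_apply, ih, pow_succ']
    ring

theorem exists_rep (hζ : ζ ^ n = 1) (θ : KK →+* K') (s b : K') (hs : θ uu = s ^ n)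
    (hb : θ vv = b ^ n) : ∃ (χ : AddChar (ZMod n) K') (ρ : AA n ζ →+* Module.End K' (ZMod n → K')),
      (∀ k, χ k = θ (algebraMap ℂ KK (ζ ^ k.val))) ∧
      (∀ r, ρ (algebraMap KK (AA n ζ) r) = algebraMap K' _ (θ r)) ∧
      ρ (tt n ζ) = opT s ∧ ρ (yy n ζ) = opY b χ := by
  have hζ' : (θ (algebraMap ℂ KK ζ)) ^ n = 1 := by
    rw [← map_pow, ← map_pow, hζ, map_one, map_one]
  let χ : AddChar (ZMod n) K' := AddChar.zmodChar n hζ'
  have hχ : ∀ k, χ k = θ (algebraMap ℂ KK (ζ ^ k.val)) := by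
    intro k
    show AddChar.zmodChar n hζ' k = _
    rw [AddChar.zmodChar_apply, map_pow, map_pow]
  have hχ1 : χ 1 = θ (algebraMap ℂ KK ζ) := by
    have h := AddChar.zmodChar_apply' hζ' 1
    rw [pow_one] at h
    rw [← h]
    show χ 1 = χ ((1 : ℕ) : ZMod n)
    rw [Nat.cast_one]
  letI : Algebra KK (Module.End K' (ZMod n → K')) := Algebra.compHom _ θ
  have halg : ∀ r : KK, algebraMap KK (Module.End K' (ZMod n → K')) r = algebraMap K' _ (θ r) :=
    fun r => rfl
  let f : FreeAlgebra KK (Fin 2) →ₐ[KK] Module.End K' (ZMod n → K') :=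
    FreeAlgebra.lift KK ![opT s, opY b χ]
  have f0 : f (FreeAlgebra.ι KK 0) = opT s := FreeAlgebra.lift_ι_apply _ _
  have f1 : f (FreeAlgebra.ι KK 1) = opY b χ := FreeAlgebra.lift_ι_apply _ _
  have hf : ∀ ⦃x y⦄, rel n ζ x y → f x = f y := by
    rintro x y (⟨rfl, rfl⟩ | ⟨rfl, rfl⟩ | ⟨rfl, rfl⟩)
    · rw [map_pow, f0, AlgHom.commutes, halg]
      show opT s ^ n = algebraMap K' _ (θ uu)
      rw [hs]
      refine LinearMap.ext fun ψ => funext fun k => ?_
      rw [opT_pow, Module.algebraMap_end_apply]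
      simp
    · rw [map_pow, f1, AlgHom.commutes, halg]
      show opY b χ ^ n = algebraMap K' _ (θ vv)
      rw [hb]
      refine LinearMap.ext fun ψ => funext fun k => ?_
      rw [opY_pow, Module.algebraMap_end_apply, mul_pow]
      have : χ k ^ n = 1 := by
        rw [hχ, ← map_pow, ← map_pow, ← pow_mul, mul_comm, pow_mul, hζ, one_pow, map_one, map_one]
      rw [this, mul_one]
      rfl
    · have h1 : (algebraMap ℂ (FreeAlgebra KK (Fin 2)) ζ) =
        algebraMap KK (FreeAlgebra KK (Fin 2)) (algebraMap ℂ KK ζ) := rfl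
      rw [map_mul, map_mul, map_mul, f0, f1, h1, AlgHom.commutes, halg, ← hχ1]
      refine LinearMap.ext fun ψ => funext fun k => ?_
      rw [Module.End.mul_apply, Module.End.mul_apply, Module.End.mul_apply,
        Module.algebraMap_end_apply, opT_apply, opY_apply, Pi.smul_apply, opY_apply, opT_apply,
        AddChar.map_add_eq_mul, smul_eq_mul]
      ring
  let ρ := RingQuot.liftAlgHom KK ⟨f, hf⟩
  refine ⟨χ, ρ.toRingHom, hχ, fun r => ?_, ?_, ?_⟩
  · show ρ (algebraMap KK (AA n ζ) r) = _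
    rw [AlgHom.commutes, halg]
  · show ρ (mk n ζ (FreeAlgebra.ι KK 0)) = _
    rw [← f0]
    exact RingQuot.liftAlgHom_mkAlgHom_apply KK f hf _
  · show ρ (mk n ζ (FreeAlgebra.ι KK 1)) = _
    rw [← f1]
    exact RingQuot.liftAlgHom_mkAlgHom_apply KK f hf _

end Pool.Agent.H339R3
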