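import Pool.Agent.H339R3.Concrete

/-!
The final result on the cyclic algebra.
-/

set_option autoImplicit false

namespace Pool.Agent.H339R3

theorem nontrivial_AA {n : ℕ} {ζ : ℂ} {B : Type} [Ring B] [Nontrivial B] (ρ : AA n ζ →+* B) :
    Nontrivial (AA n ζ) := ρ.domain_nontrivial

open scoped Classical in
theorem main_AA (n : ℕ) (hn : 2 ≤ n) (ζ : ℂ) (hζ : IsPrimitiveRoot ζ n) :
    ∃ (L : Type) (_ : Field L) (_ : Algebra ℂ L) (f : L →ₐ[ℂ] AA n ζ),
      Function.Injective f ∧ Algebra.trdeg ℂ L = 1 ∧ IsEmpty (L ≃ₐ[ℂ] RatFunc ℂ) := by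
  have hn0 : 0 < n := by omega
  have : NeZero n := ⟨by omega⟩
  have hζ0 : ζ ≠ 0 := hζ.ne_zero (by omega)
  have hζ1 : ζ ≠ 1 := hζ.ne_one (by omega)
  obtain ⟨χ, ρ, hχ, hρ, hT, hY⟩ := exists_rep (ζ := ζ) hζ.pow_eq_one (theta n hn0) RatFunc.X
    (RatFunc.C b0) (theta_u n hn0) (theta_v n hn0)
  have : Nontrivial (AA n ζ) := ρ.domain_nontrivial
  have hinj := rep_injective hζ (theta n hn0) RatFunc.X_ne_zero
    ((map_ne_zero RatFunc.C).mpr b0_ne_zero) hχ hρ hT hY
  have hb : ∀ k, RatFunc.inftyValuation k1 (RatFunc.C b0 * χ k) = 1 := by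
    intro k
    rw [hχ, theta_C, map_mul, RatFunc.inftyValuation.C k1 b0_ne_zero,
      RatFunc.inftyValuation.C k1 (algC_ne_zero (pow_ne_zero _ hζ0)), one_mul]
  have hs : 1 < RatFunc.inftyValuation k1 RatFunc.X := by
    rw [RatFunc.inftyValuation.X, ← WithZero.exp_zero, WithZero.exp_lt_exp]
    norm_num
  have htu : IsUnit (tt n ζ) := by
    have h : IsUnit (tt n ζ ^ n) := by
      rw [tt_pow]
      refine IsUnit.map (algebraMap KK (AA n ζ)) (isUnit_iff_ne_zero.mpr ?_)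
      intro h0
      have := (IsFractionRing.injective (MvPolynomial (Fin 2) ℂ) KK) (h0.trans (map_zero _).symm)
      exact MvPolynomial.X_ne_zero 0 this
    exact (isUnit_pow_iff (by omega)).mp h
  have hκ1 : ∀ c, RatFunc.inftyValuation k1 (theta n hn0 (algebraMap ℂ KK c)) ≤ 1 := by
    intro c
    rw [theta_C]
    by_cases hc : c = 0
    · rw [hc, map_zero, map_zero, map_zero, map_zero]; exact zero_le_one
    · rw [RatFunc.inftyValuation.C k1 (algC_ne_zero hc)]
  exact main_abstract (A := AA n ζ) hζ0 hζ1 (tt_yy n ζ) htu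
    (fun c => unit_sub (A := AA n ζ) (algebraMap_tower n ζ) (yy_pow n ζ) c)
    (fun x hx => isUnit_AA hζ0 hx) (RatFunc.inftyValuation k1) ρ hinj hT hY hs hb
    (fun c => theta n hn0 (algebraMap ℂ KK c))
    (fun c => by rw [algebraMap_tower]; exact hρ _) hκ1

end Pool.Agent.H339R3
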